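import Mathlib

/-!
# Rotation systems of simple graphs, genus, and triangular embeddings

A cellular embedding of a connected simple graph in a closed orientable surface is given by its
rotation system.
-/

namespace Pool.Agent.Lib.CurG

/-- A cellular embedding of the graph `G` in a closed orientable surface, given by its rotation
system: `rot` permutes cyclically the darts (edges with a direction) which start at any given
vertex. -/
structure RotSys {V : Type} (G : SimpleGraph V) where
  rot : Equiv.Perm G.Dart
  rot_iff : ∀ d e : G.Dart, d.fst = e.fst ↔ rot.SameCycle d e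

namespace RotSys

variable {V : Type} {G : SimpleGraph V}

/-- The faces of the embedding are the cycles of this permutation: the boundary walk of the face
to one side of the dart `d` continues after `d` with the dart `next d`, the successor in the
rotation of the dart `d` reversed. -/
def next (R : RotSys G) : Equiv.Perm G.Dart :=
  R.rot * (Function.Involutive.toPerm SimpleGraph.Dart.symm SimpleGraph.Dart.symm_involutive)

/-- The number of faces. -/
noncomputable def faces (R : RotSys G) : ℕ :=
  Nat.card (Quotient (Equiv.Perm.SameCycle.setoid R.next))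

/-- The surface has genus `g`: Euler's formula `|V| - |E| + |F| = 2 - 2 g`, multiplied by two and
rearranged (there are `2 |E|` darts). -/
def HasGenus (R : RotSys G) (g : ℕ) : Prop :=
  2 * Nat.card V + 2 * R.faces + 4 * g = Nat.card G.Dart + 4

theorem next_apply (R : RotSys G) (d : G.Dart) : R.next d = R.rot d.symm := rfl

theorem rot_fst (R : RotSys G) (d : G.Dart) : (R.rot d).fst = d.fst :=
  ((R.rot_iff d (R.rot d)).2 ⟨1, by simp⟩).symm

theorem next_fst (R : RotSys G) (d : G.Dart) : (R.next d).fst = d.snd := by
  rw [next_apply, rot_fst]; rfl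

end RotSys

/-- The genus of the connected graph `G`: the least genus of a closed orientable surface in which
`G` has a cellular embedding. -/
noncomputable def gamma {V : Type} (G : SimpleGraph V) : ℕ :=
  sInf {g | ∃ R : RotSys G, R.HasGenus g}

/-! ### Counting cycles -/

section Count
variable {α : Type*} [Finite α] (σ : Equiv.Perm α)

theorem three_mul_card_le (h1 : ∀ x, σ x ≠ x) (h2 : ∀ x, σ (σ x) ≠ x) :
    3 * Nat.card (Quotient (Equiv.Perm.SameCycle.setoid σ)) ≤ Nat.card α := by
  classical
  let f : Quotient (Equiv.Perm.SameCycle.setoid σ) × Fin 3 → α := fun p => (σ ^ p.2.val) p.1.out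
  have hf : Function.Injective f := by
    rintro ⟨q, i⟩ ⟨q', i'⟩ h
    have hq : q = q' := by
      rw [← Quotient.out_eq q, ← Quotient.out_eq q']
      apply Quotient.sound
      have e1 : σ.SameCycle q.out ((σ ^ i.val) q.out) := ⟨i.val, by simp⟩
      have e2 : σ.SameCycle q'.out ((σ ^ i'.val) q'.out) := ⟨i'.val, by simp⟩
      have h' : (σ ^ i.val) q.out = (σ ^ i'.val) q'.out := h
      rw [h'] at e1
      exact e1.trans e2.symm
    subst hq
    have h' : (σ ^ i.val) q.out = (σ ^ i'.val) q.out := h
    have : i = i' := by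
      fin_cases i <;> fin_cases i' <;> simp_all [pow_two, eq_comm]
    rw [this]
  have := Nat.card_le_card_of_injective f hf
  rw [Nat.card_prod, Nat.card_fin] at this
  omega

theorem three_mul_card_eq (h1 : ∀ x, σ x ≠ x) (h3 : ∀ x, σ (σ (σ x)) = x) :
    3 * Nat.card (Quotient (Equiv.Perm.SameCycle.setoid σ)) = Nat.card α := by
  classical
  have h2 : ∀ x, σ (σ x) ≠ x := by
    intro x h
    have := h3 x
    rw [h] at this
    exact h1 x this
  apply le_antisymm (three_mul_card_le σ h1 h2)
  let f : Quotient (Equiv.Perm.SameCycle.setoid σ) × Fin 3 → α := fun p => (σ ^ p.2.val) p.1.out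
  have hp3 : σ ^ (3 : ℤ) = 1 := by
    ext x
    have : (σ ^ (3 : ℤ)) x = σ (σ (σ x)) := by
      rw [show (3 : ℤ) = 1 + 1 + 1 by norm_num, zpow_add, zpow_add]; simp
    rw [this, h3]; rfl
  have hf : Function.Surjective f := by
    intro x
    have hs : σ.SameCycle (Quotient.mk (Equiv.Perm.SameCycle.setoid σ) x).out x :=
      Quotient.exact (Quotient.out_eq (Quotient.mk (Equiv.Perm.SameCycle.setoid σ) x))
    obtain ⟨k, hk⟩ := hs
    have hk' : k = 3 * (k / 3) + (k % 3) := (Int.mul_ediv_add_emod k 3).symm
    have hm : 0 ≤ k % 3 ∧ k % 3 < 3 := ⟨Int.emod_nonneg _ (by norm_num),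
      Int.emod_lt_of_pos _ (by norm_num)⟩
    refine ⟨(Quotient.mk _ x, ⟨(k % 3).toNat, by omega⟩), ?_⟩
    have hpow : σ ^ k = σ ^ (k % 3).toNat := by
      rw [hk', zpow_add, zpow_mul, hp3, one_zpow, one_mul, ← hk']
      conv_lhs => rw [← Int.toNat_of_nonneg hm.1]
      rw [zpow_natCast]
    rw [hpow] at hk
    exact hk
  have := Nat.card_le_card_of_surjective f hf
  rw [Nat.card_prod, Nat.card_fin] at this
  omega

end Count

/-! ### Triangular embeddings -/

/-- A triangular embedding of `G`, given by the third vertex `T u v` of the triangle to the left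
of the dart `u → v`. -/
structure TriSys {V : Type} (G : SimpleGraph V) where
  T : V → V → V
  adj : ∀ u v, G.Adj u v → G.Adj v (T u v)
  cyc : ∀ u v, G.Adj u v → T v (T u v) = u
  conn : ∀ u v w, G.Adj v u → G.Adj w u → ∃ n : ℕ, (fun v => T v u)^[n] v = w

namespace TriSys

variable {V : Type} {G : SimpleGraph V} (S : TriSys G)

theorem cyc' (u v : V) (h : G.Adj u v) : S.T (S.T u v) u = v := by
  have h1 := S.cyc v (S.T u v) (S.adj u v h)
  rwa [S.cyc u v h] at h1

/-- The rotation system. -/
def rot : Equiv.Perm G.Dart where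
  toFun d := ⟨(d.fst, S.T d.snd d.fst), S.adj _ _ d.adj.symm⟩
  invFun d := ⟨(d.fst, S.T d.fst d.snd), by
    have h := S.adj _ _ (S.adj _ _ d.adj)
    rw [S.cyc _ _ d.adj] at h
    exact h.symm⟩
  left_inv d := by
    apply SimpleGraph.Dart.ext
    exact Prod.ext rfl (S.cyc _ _ d.adj.symm)
  right_inv d := by
    apply SimpleGraph.Dart.ext
    exact Prod.ext rfl (S.cyc' _ _ d.adj)

theorem rot_pow (d : G.Dart) (n : ℕ) :
    ((S.rot ^ n) d).fst = d.fst ∧ ((S.rot ^ n) d).snd = (fun v => S.T v d.fst)^[n] d.snd := by
  induction n with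
  | zero => exact ⟨rfl, rfl⟩
  | succ n ih =>
    rw [pow_succ', Equiv.Perm.mul_apply]
    refine ⟨ih.1, ?_⟩
    rw [Function.iterate_succ_apply', ← ih.2]
    change S.T ((S.rot ^ n) d).snd ((S.rot ^ n) d).fst = _
    rw [ih.1]

variable [Finite V]

/-- The rotation system. -/
def toRotSys : RotSys G where
  rot := S.rot
  rot_iff d e := by
    constructor
    · intro h
      obtain ⟨n, hn⟩ := S.conn d.fst d.snd e.snd d.adj.symm (by rw [h]; exact e.adj.symm)
      refine ⟨n, ?_⟩
      rw [zpow_natCast]
      apply SimpleGraph.Dart.ext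
      have := S.rot_pow d n
      exact Prod.ext (this.1.trans h) (this.2.trans hn)
    · intro h
      haveI : Finite G.Dart := by
        classical
        exact Finite.of_injective (fun d : G.Dart => d.toProd) SimpleGraph.Dart.toProd_injective
      obtain ⟨n, hn⟩ := h.exists_nat_pow_eq
      rw [← hn, (S.rot_pow d n).1]

theorem toRotSys_next (d : G.Dart) :
    (S.toRotSys.next d).fst = d.snd ∧ (S.toRotSys.next d).snd = S.T d.fst d.snd := ⟨rfl, rfl⟩

theorem faces_eq : 3 * S.toRotSys.faces = Nat.card G.Dart := by
  have : Finite G.Dart := by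
    classical
    exact Finite.of_injective (fun d : G.Dart => d.toProd) SimpleGraph.Dart.toProd_injective
  have key : ∀ d : G.Dart, ((S.toRotSys.next d).fst = d.snd ∧
      (S.toRotSys.next d).snd = S.T d.fst d.snd) := S.toRotSys_next
  apply three_mul_card_eq
  · intro d h
    have h1 : (S.toRotSys.next d).fst = d.fst := by rw [h]
    rw [(key d).1] at h1
    exact d.adj.ne h1.symm
  · intro d
    have e1 : (S.toRotSys.next (S.toRotSys.next d)).fst = S.T d.fst d.snd := by
      rw [(key _).1, (key _).2]
    have e2 : (S.toRotSys.next (S.toRotSys.next d)).snd = d.fst := by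
      rw [(key _).2, (key _).1, (key _).2]
      exact S.cyc _ _ d.adj
    apply SimpleGraph.Dart.ext
    refine Prod.ext ?_ ?_
    · change (S.toRotSys.next (S.toRotSys.next (S.toRotSys.next d))).fst = d.fst
      rw [(key _).1, e2]
    · change (S.toRotSys.next (S.toRotSys.next (S.toRotSys.next d))).snd = d.snd
      rw [(key _).2, e1, e2]
      exact S.cyc' _ _ d.adj

/-- Relabelling the vertices. -/
def transport {V' : Type} {G' : SimpleGraph V'} (e : V ≃ V')
    (he : ∀ u v, G'.Adj u v ↔ G.Adj (e.symm u) (e.symm v)) : TriSys G' where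
  T u v := e (S.T (e.symm u) (e.symm v))
  adj u v h := by
    rw [he] at h ⊢
    rw [e.symm_apply_apply]
    exact S.adj _ _ h
  cyc u v h := by
    rw [he] at h
    rw [e.symm_apply_apply, S.cyc _ _ h, e.apply_symm_apply]
  conn u v w hv hw := by
    rw [he] at hv hw
    obtain ⟨n, hn⟩ := S.conn _ _ _ hv hw
    refine ⟨n, ?_⟩
    have : ∀ m, e.symm ((fun v => e (S.T (e.symm v) (e.symm u)))^[m] v)
        = (fun v => S.T v (e.symm u))^[m] (e.symm v) := by
      intro m
      induction m with
      | zero => rfl
      | succ m ih =>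
        rw [Function.iterate_succ_apply', Function.iterate_succ_apply', ← ih, e.symm_apply_apply]
    apply e.symm.injective
    rw [this n, hn]

end TriSys

/-! ### Euler's formula: the lower bound -/

theorem RotSys.three_mul_faces_le {V : Type} [Finite V] {G : SimpleGraph V}
    (hdeg : ∀ u v, G.Adj u v → ∃ w, G.Adj u w ∧ w ≠ v) (R : RotSys G) :
    3 * R.faces ≤ Nat.card G.Dart := by
  have : Finite G.Dart := by
    classical
    exact Finite.of_injective (fun d : G.Dart => d.toProd) SimpleGraph.Dart.toProd_injective
  apply three_mul_card_le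
  · intro d h
    have h1 : (R.next d).fst = d.fst := by rw [h]
    rw [R.next_fst] at h1
    exact d.adj.ne h1.symm
  · intro d h
    -- then `next d` is the dart `d` reversed, so the end of `d` has degree one
    have e1 : (R.next d).snd = d.fst := by
      rw [← R.next_fst, h]
    have e2 : R.next d = d.symm := by
      apply SimpleGraph.Dart.ext
      exact Prod.ext (R.next_fst d) e1
    rw [R.next_apply] at e2
    obtain ⟨w, hw, hne⟩ := hdeg d.snd d.fst d.adj.symm
    have hs : R.rot.SameCycle d.symm ⟨(d.snd, w), hw⟩ := (R.rot_iff _ _).1 rfl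
    obtain ⟨k, hk⟩ := hs
    have hfix : Function.IsFixedPt R.rot d.symm := e2
    have h3 := hfix.perm_zpow k
    rw [Function.IsFixedPt, hk] at h3
    have h4 := congrArg (fun x : G.Dart => x.snd) h3
    exact hne h4

/-- If `G` (with all vertices of degree at least two) has a triangular embedding, then its genus is
given by Euler's formula. -/
theorem gamma_eq_of_triSys {V : Type} [Finite V] {G : SimpleGraph V}
    (hdeg : ∀ u v, G.Adj u v → ∃ w, G.Adj u w ∧ w ≠ v) (S : TriSys G) (g : ℕ)
    (hg : 6 * Nat.card V + 12 * g = Nat.card G.Dart + 12) : gamma G = g := by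
  have h1 : S.toRotSys.HasGenus g := by
    have := S.faces_eq
    unfold RotSys.HasGenus
    omega
  apply le_antisymm
  · exact Nat.sInf_le ⟨_, h1⟩
  · obtain ⟨R, hR⟩ : gamma G ∈ {g | ∃ R : RotSys G, R.HasGenus g} := Nat.sInf_mem ⟨g, _, h1⟩
    have h2 := R.three_mul_faces_le hdeg
    unfold RotSys.HasGenus at hR
    omega

end Pool.Agent.Lib.CurG
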