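import Mathlib
import Pool.Agent.Lib.CurG.Rot

/-!
# Derived embeddings of current graphs of index `k`

A state `(c, j)` (class `c` modulo `k`, nonzero difference `j` modulo `N`) stands for all darts
`x → x + j` with `x ≡ c` modulo `k`. `psi c j` is the difference of the next dart of the face;
`lab c j = some i` says that the face is the Hamiltonian face number `i`, which is filled with a
new vertex.
-/

namespace Pool.Agent.Lib.CurG

/-- `b` is reached from `a`. -/
def Reach {α : Type*} (f : α → α) (a b : α) : Prop := ∃ n : ℕ, f^[n] a = b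

theorem Reach.refl {α : Type*} (f : α → α) (a : α) : Reach f a a := ⟨0, rfl⟩

theorem Reach.one {α : Type*} (f : α → α) (a : α) : Reach f a (f a) := ⟨1, rfl⟩

theorem Reach.trans {α : Type*} {f : α → α} {a b c : α} (h : Reach f a b) (h' : Reach f b c) :
    Reach f a c := by
  obtain ⟨n, rfl⟩ := h
  obtain ⟨m, rfl⟩ := h'
  exact ⟨m + n, Function.iterate_add_apply _ _ _ _⟩

/-- The complete graph on `ZMod N ⊕ J` minus the edges inside `J`. -/
def KMinus (N : ℕ) (J : Type) : SimpleGraph (ZMod N ⊕ J) where
  Adj u v := u ≠ v ∧ (u.isLeft = true ∨ v.isLeft = true)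
  symm := ⟨fun _ _ h => ⟨h.1.symm, h.2.symm⟩⟩
  loopless := ⟨fun _ h => h.1 rfl⟩

/-- The combinatorial data of a current graph of index `k` over the cyclic group `ZMod N` with
vortices labelled by `J`. -/
structure CG (k N : ℕ) (J : Type) (hk : k ∣ N) where
  psi : ZMod k → ZMod N → ZMod N
  lab : ZMod k → ZMod N → Option J
  g : J → ZMod k → ZMod N
  psi_ne : ∀ c j, j ≠ 0 → psi c j ≠ 0
  lab_none : ∀ c j, j ≠ 0 → lab c j = none →
    lab (c + ZMod.castHom hk (ZMod k) j) (psi c j) = none
  sum_zero : ∀ c j, j ≠ 0 → lab c j = none →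
    j + psi c j + psi (c + ZMod.castHom hk (ZMod k) j) (psi c j) = 0
  g_ne : ∀ i c, g i c ≠ 0
  lab_some : ∀ c j i, j ≠ 0 → (lab c j = some i ↔ j = g i c)
  psi_g : ∀ i c, psi c (g i c) = g i (c + ZMod.castHom hk (ZMod k) (g i c))
  single_g : ∀ i x y, Reach (fun x => x + g i (ZMod.castHom hk (ZMod k) x)) x y
  single : ∀ c j j', j ≠ 0 → j' ≠ 0 →
    Reach (fun j => psi (c + ZMod.castHom hk (ZMod k) j) (-j)) j j'

namespace CG

variable {k N : ℕ} {J : Type} {hk : k ∣ N} (D : CG k N J hk)

/-- the class of a vertex -/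
def cl (hk : k ∣ N) (x : ZMod N) : ZMod k := ZMod.castHom hk (ZMod k) x

theorem cl_add (x y : ZMod N) : cl hk (x + y) = cl hk x + cl hk y := map_add _ _ _

theorem cl_sub (x y : ZMod N) : cl hk (x - y) = cl hk x - cl hk y := map_sub _ _ _

theorem cl_neg (x : ZMod N) : cl hk (- x) = - cl hk x := map_neg _ _

/-- the face number `i` -/
def h (i : J) (x : ZMod N) : ZMod N := x + D.g i (cl hk x)

variable [NeZero N]

theorem h_bij (i : J) : Function.Bijective (D.h i) := by
  apply Function.Surjective.bijective_of_finite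
  intro y
  obtain ⟨n, hn⟩ := D.single_g i (D.h i y) y
  refine ⟨(D.h i)^[n] y, ?_⟩
  rw [← Function.iterate_succ_apply' (D.h i) n y, Function.iterate_succ_apply]
  exact hn

/-- the face number `i` as a permutation -/
noncomputable def hE (i : J) : Equiv.Perm (ZMod N) := Equiv.ofBijective _ (D.h_bij i)

theorem hE_apply (i : J) (x : ZMod N) : D.hE i x = D.h i x := rfl

theorem hE_symm_apply (i : J) (x : ZMod N) : D.h i ((D.hE i).symm x) = x := by
  rw [← hE_apply, Equiv.apply_symm_apply]

theorem hE_symm_eq (i : J) (x y : ZMod N) (hxy : D.h i x = y) : (D.hE i).symm y = x := by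
  rw [← hxy, ← hE_apply, Equiv.symm_apply_apply]

/-- The third vertex. -/
noncomputable def T : ZMod N ⊕ J → ZMod N ⊕ J → ZMod N ⊕ J
  | Sum.inl x, Sum.inl y =>
    match D.lab (cl hk x) (y - x) with
    | some i => Sum.inr i
    | none => Sum.inl (y + D.psi (cl hk x) (y - x))
  | Sum.inl y, Sum.inr i => Sum.inl ((D.hE i).symm y)
  | Sum.inr i, Sum.inl x => Sum.inl (D.h i x)
  | Sum.inr i, Sum.inr _ => Sum.inr i

theorem T_none (x y : ZMod N) (h : D.lab (cl hk x) (y - x) = none) :
    D.T (Sum.inl x) (Sum.inl y) = Sum.inl (y + D.psi (cl hk x) (y - x)) := by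
  simp only [T, h]

theorem T_some (x y : ZMod N) (i : J) (h : D.lab (cl hk x) (y - x) = some i) :
    D.T (Sum.inl x) (Sum.inl y) = Sum.inr i := by
  simp only [T, h]

theorem T_lr (y : ZMod N) (i : J) :
    D.T (Sum.inl y) (Sum.inr i) = Sum.inl ((D.hE i).symm y) := rfl

theorem T_rl (x : ZMod N) (i : J) :
    D.T (Sum.inr i) (Sum.inl x) = Sum.inl (D.h i x) := rfl

theorem T_adj (u v : ZMod N ⊕ J) (h : (KMinus N J).Adj u v) : (KMinus N J).Adj v (D.T u v) := by
  obtain ⟨hne, hl⟩ := h
  rcases u with x | i <;> rcases v with y | i'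
  · have hj : y - x ≠ 0 := by
      intro h; apply hne; rw [sub_eq_zero.1 h]
    rcases hlab : D.lab (cl hk x) (y - x) with _ | i
    · rw [D.T_none x y hlab]
      refine ⟨?_, Or.inl rfl⟩
      intro h
      have h' := Sum.inl.inj h
      exact D.psi_ne (cl hk x) _ hj (by simpa using h'.symm)
    · rw [D.T_some x y i hlab]
      exact ⟨by simp, Or.inl rfl⟩
  · rw [T_lr]; exact ⟨by simp, Or.inr rfl⟩
  · rw [T_rl]
    refine ⟨?_, Or.inl rfl⟩
    intro h
    have h' := Sum.inl.inj h
    apply D.g_ne i (cl hk y)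
    have : y = y + D.g i (cl hk y) := h'
    simpa using this.symm
  · simp at hl

theorem T_cyc (u v : ZMod N ⊕ J) (h : (KMinus N J).Adj u v) : D.T v (D.T u v) = u := by
  obtain ⟨hne, hl⟩ := h
  rcases u with x | i <;> rcases v with y | i'
  · have hj : y - x ≠ 0 := by
      intro h; apply hne; rw [sub_eq_zero.1 h]
    have hc : cl hk x + ZMod.castHom hk (ZMod k) (y - x) = cl hk y := by
      change cl hk x + cl hk (y - x) = cl hk y
      rw [cl_sub]; ring
    rcases hlab : D.lab (cl hk x) (y - x) with _ | i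
    · rw [D.T_none x y hlab]
      have h1 := D.lab_none _ _ hj hlab
      have h2 := D.sum_zero _ _ hj hlab
      rw [hc] at h1 h2
      rw [D.T_none y _ (by rw [add_sub_cancel_left]; exact h1), add_sub_cancel_left]
      congr 1
      have : y + D.psi (cl hk x) (y - x) + D.psi (cl hk y) (D.psi (cl hk x) (y - x))
          = x + (y - x + D.psi (cl hk x) (y - x) + D.psi (cl hk y) (D.psi (cl hk x) (y - x))) := by
        ring
      rw [this, h2, add_zero]
    · rw [D.T_some x y i hlab, T_lr]
      congr 1
      apply D.hE_symm_eq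
      have h1 := (D.lab_some _ _ i hj).1 hlab
      rw [h, ← h1]; ring
  · rw [T_lr, T_rl, hE_symm_apply]
  · rw [T_rl]
    apply D.T_some
    have : D.h i y - y = D.g i (cl hk y) := by rw [h]; ring
    rw [this]
    exact (D.lab_some _ _ i (D.g_ne i _)).2 rfl
  · simp at hl

theorem T_conn (u v w : ZMod N ⊕ J) (hv : (KMinus N J).Adj v u) (hw : (KMinus N J).Adj w u) :
    Reach (fun v => D.T v u) v w := by
  rcases u with x | i
  · -- the neighbours of `x`
    set f : ZMod N ⊕ J → ZMod N ⊕ J := fun v => D.T v (Sum.inl x) with hf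
    set c := cl hk x with hc
    set θ : ZMod N → ZMod N := fun j => D.psi (c + ZMod.castHom hk (ZMod k) j) (-j) with hθ
    have hcj : ∀ j : ZMod N, cl hk (x + j) = c + ZMod.castHom hk (ZMod k) j := fun j => cl_add x j
    have hcj' : ∀ j : ZMod N, c + ZMod.castHom hk (ZMod k) j + ZMod.castHom hk (ZMod k) (-j) = c := by
      intro j; rw [map_neg]; ring
    have hθne : ∀ j, j ≠ 0 → θ j ≠ 0 := fun j hj => D.psi_ne _ _ (neg_ne_zero.2 hj)
    have hr : ∀ i, f (Sum.inr i) = Sum.inl (x + D.g i c) := fun i => rfl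
    have step : ∀ j, j ≠ 0 → Reach f (Sum.inl (x + j)) (Sum.inl (x + θ j)) := by
      intro j hj
      have e1 : x - (x + j) = - j := by ring
      rcases hlab : D.lab (cl hk (x + j)) (x - (x + j)) with _ | i
      · refine ⟨1, ?_⟩
        change D.T (Sum.inl (x + j)) (Sum.inl x) = _
        rw [D.T_none _ _ hlab, e1, hcj]
      · refine ⟨2, ?_⟩
        change D.T (D.T (Sum.inl (x + j)) (Sum.inl x)) (Sum.inl x) = _
        rw [D.T_some _ _ i hlab]
        rw [e1, hcj] at hlab
        have h1 := (D.lab_some _ _ i (neg_ne_zero.2 hj)).1 hlab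
        have h2 : θ j = D.g i c := by
          rw [hθ]
          change D.psi (c + ZMod.castHom hk (ZMod k) j) (-j) = _
          rw [h1, D.psi_g, ← h1, hcj']
        rw [h2]
        exact hr i
    have step' : ∀ n j, j ≠ 0 → Reach f (Sum.inl (x + j)) (Sum.inl (x + θ^[n] j)) := by
      intro n
      induction n with
      | zero => intro j _; exact Reach.refl _ _
      | succ n ih =>
        intro j hj
        rw [Function.iterate_succ_apply]
        exact (step j hj).trans (ih _ (hθne j hj))
    have all : ∀ j j', j ≠ 0 → j' ≠ 0 → Reach f (Sum.inl (x + j)) (Sum.inl (x + j')) := by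
      intro j j' hj hj'
      obtain ⟨n, hn⟩ := D.single c j j' hj hj'
      have := step' n j hj
      rwa [show θ^[n] j = j' from hn] at this
    -- any start leads to some `inl`
    have start : ∃ j, j ≠ 0 ∧ Reach f v (Sum.inl (x + j)) := by
      rcases v with y | i
      · refine ⟨y - x, ?_, ?_⟩
        · intro h; apply hv.1; rw [sub_eq_zero.1 h]
        · rw [add_sub_cancel]; exact Reach.refl _ _
      · exact ⟨D.g i c, D.g_ne i c, ⟨1, hr i⟩⟩
    have finish : ∃ j, j ≠ 0 ∧ Reach f (Sum.inl (x + j)) w := by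
      rcases w with y | i
      · refine ⟨y - x, ?_, ?_⟩
        · intro h; apply hw.1; rw [sub_eq_zero.1 h]
        · rw [add_sub_cancel]; exact Reach.refl _ _
      · set x' := (D.hE i).symm x with hx'
        have h1 : x' + D.g i (cl hk x') = x := D.hE_symm_apply i x
        refine ⟨- D.g i (cl hk x'), neg_ne_zero.2 (D.g_ne i _), ⟨1, ?_⟩⟩
        change D.T (Sum.inl (x + - D.g i (cl hk x'))) (Sum.inl x) = _
        have h2 : x + - D.g i (cl hk x') = x' := by
          rw [← sub_eq_add_neg]; exact sub_eq_of_eq_add h1.symm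
        rw [h2]
        apply D.T_some
        have h3 : x - x' = D.g i (cl hk x') := sub_eq_of_eq_add' h1.symm
        rw [h3]
        exact (D.lab_some _ _ i (D.g_ne i _)).2 rfl
    obtain ⟨j, hj, h1⟩ := start
    obtain ⟨j', hj', h2⟩ := finish
    exact (h1.trans (all j j' hj hj')).trans h2
  · rcases v with a | i'
    · rcases w with b | i'
      · obtain ⟨n, hn⟩ := D.single_g i b a
        refine ⟨n, ?_⟩
        have key : ∀ m z, (fun v => D.T v (Sum.inr i))^[m] (Sum.inl ((D.h i)^[m] z))
            = (Sum.inl z : ZMod N ⊕ J) := by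
          intro m
          induction m with
          | zero => intro z; rfl
          | succ m ih =>
            intro z
            rw [Function.iterate_succ_apply, Function.iterate_succ_apply']
            change (fun v => D.T v (Sum.inr i))^[m] (Sum.inl ((D.hE i).symm _)) = _
            rw [D.hE_symm_eq i ((D.h i)^[m] z) _ rfl]
            exact ih z
        have := key n b
        rwa [show (D.h i)^[n] b = a from hn] at this
      · exact absurd hw.2 (by simp)
    · exact absurd hv.2 (by simp)

/-- The derived embedding of a current graph is a triangular embedding. -/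
noncomputable def triSys : TriSys (KMinus N J) where
  T := D.T
  adj := D.T_adj
  cyc := D.T_cyc
  conn := D.T_conn

end CG

end Pool.Agent.Lib.CurG
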