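import Mathlib
import Pool.Agent.Lib.CurG.Derived

/-!
# Families of current graphs given by finite tables

A family of current graphs, one for each integer `u ≥ u₀`, over `ZMod N` with `N = a u + b`,
whose circuits, values and ranks are given by affine functions. The conditions are decidable.
-/

namespace Pool.Agent.Lib.CurG.Table

/-- The affine function `a u + b`. -/
structure Aff where
  a : ℤ
  b : ℤ
  deriving DecidableEq

namespace Aff

def ev (f : Aff) (u : ℤ) : ℤ := f.a * u + f.b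

def add (f g : Aff) : Aff := ⟨f.a + g.a, f.b + g.b⟩

def sub (f g : Aff) : Aff := ⟨f.a - g.a, f.b - g.b⟩

def smul (c : ℤ) (f : Aff) : Aff := ⟨c * f.a, c * f.b⟩

def cst (c : ℤ) : Aff := ⟨0, c⟩

/-- nonnegative for all `u ≥ u₀` (sufficient condition) -/
def NN (f : Aff) (u₀ : ℤ) : Prop := 0 ≤ f.a ∧ 0 ≤ f.a * u₀ + f.b

instance (f : Aff) (u₀ : ℤ) : Decidable (f.NN u₀) := by unfold NN; infer_instance

theorem ev_add (f g : Aff) (u : ℤ) : (f.add g).ev u = f.ev u + g.ev u := by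
  simp only [ev, add]; ring

theorem ev_sub (f g : Aff) (u : ℤ) : (f.sub g).ev u = f.ev u - g.ev u := by
  simp only [ev, sub]; ring

theorem ev_smul (c : ℤ) (f : Aff) (u : ℤ) : (smul c f).ev u = c * f.ev u := by
  simp only [ev, smul]; ring

theorem ev_cst (c : ℤ) (u : ℤ) : (cst c).ev u = c := by
  simp only [ev, cst]; ring

theorem NN.ev {f : Aff} {u₀ u : ℤ} (h : f.NN u₀) (hu : u₀ ≤ u) : 0 ≤ f.ev u := by
  have := h.1
  have := h.2
  unfold Aff.ev
  nlinarith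

end Aff

/-- On `q = q0 + t`, `0 ≤ t < cnt`, the reverse state is number `sg * t + off` of side `side` of
cell `cell`. -/
structure Piece where
  q0 : Aff
  cnt : Aff
  cell : ℕ
  side : ℕ
  sg : ℤ
  off : Aff
  z : ℤ
  w : ℤ

structure Side where
  cls : ℤ
  va : ℤ
  v : Aff
  ra : ℤ
  r : Aff
  pcs : List Piece

instance : Inhabited Side := ⟨⟨0, 0, ⟨0, 0⟩, 0, ⟨0, 0⟩, []⟩⟩

structure Cell where
  len : Aff
  lab : ℕ
  sides : List Side

instance : Inhabited Cell := ⟨⟨⟨0, 0⟩, 0, []⟩⟩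

structure Chain where
  cls : ℤ
  md : ℤ
  start : Aff
  fin : Aff
  ents : List (ℕ × ℕ × ℤ)

/-- vortex: number of the cell and Bezout coefficients -/
structure Vort where
  cell : ℕ
  sum : Aff
  x : Aff
  y : Aff

instance : Inhabited Vort := ⟨⟨0, ⟨0, 0⟩, ⟨0, 0⟩, ⟨0, 0⟩⟩⟩

structure Data where
  k : ℕ
  nf : Aff
  u₀ : ℤ
  J : ℕ
  M : ℕ
  cells : List Cell
  chains : List Chain
  vorts : List Vort

def Cell.m (c : Cell) : ℕ := c.sides.length

def Cell.side (c : Cell) (p : ℕ) : Side := c.sides.getD p default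

namespace Data

variable (D : Data)

def cell (i : ℕ) : Cell := D.cells.getD i default

def vort (i : ℕ) : Vort := D.vorts.getD i default

def sideAt (i p : ℕ) : Side := (D.cell i).side p

/-- next side -/
def nx (i p : ℕ) : ℕ := (p + 1) % (D.cell i).m

def pieceOK (i p : ℕ) (P : Piece) : Prop :=
  P.cell < D.cells.length ∧ P.side < (D.cell P.cell).m ∧
  P.off.NN D.u₀ ∧ ((D.cell P.cell).len.sub ((Aff.cst 1).add P.off)).NN D.u₀ ∧
  ((Aff.smul P.sg (P.cnt.sub (Aff.cst 1))).add P.off).NN D.u₀ ∧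
  ((D.cell P.cell).len.sub
    ((Aff.cst 1).add ((Aff.smul P.sg (P.cnt.sub (Aff.cst 1))).add P.off))).NN D.u₀ ∧
  ((Aff.smul (D.sideAt i p).va P.q0).add (D.sideAt i p).v).add
    ((Aff.smul (D.sideAt P.cell P.side).va P.off).add (D.sideAt P.cell P.side).v)
      = Aff.smul P.z D.nf ∧
  ((D.sideAt i p).va + (D.sideAt P.cell P.side).va * P.sg = 0 ∨ P.cnt = Aff.cst 1) ∧
  ((D.sideAt i p).cls + (D.sideAt i p).v.b - (D.sideAt P.cell P.side).cls) % (D.k : ℤ) = 0 ∧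
  ((Aff.smul (D.sideAt i p).ra P.q0).add (D.sideAt i p).r).add (Aff.cst 1) =
    ((Aff.smul (D.sideAt P.cell (D.nx P.cell P.side)).ra P.off).add
      (D.sideAt P.cell (D.nx P.cell P.side)).r).add
      (Aff.smul P.w (D.nf.sub (Aff.cst 1))) ∧
  ((D.sideAt i p).ra = (D.sideAt P.cell (D.nx P.cell P.side)).ra * P.sg ∨ P.cnt = Aff.cst 1)

instance (i p : ℕ) (P : Piece) : Decidable (D.pieceOK i p P) := by
  unfold pieceOK; infer_instance

/-- the pieces cover `[q, len)` -/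
def cover (len : Aff) : Aff → List Piece → Bool
  | q, [] => decide (q = len)
  | q, P :: Ps => decide (P.q0 = q) && cover len (q.add P.cnt) Ps

def sideOK (i p : ℕ) : Prop :=
  0 ≤ (D.sideAt i p).cls ∧ (D.sideAt i p).cls < D.k ∧
  (D.sideAt i p).va % (D.k : ℤ) = 0 ∧ (D.sideAt i p).v.a % (D.k : ℤ) = 0 ∧
  ((D.sideAt i p).cls + (D.sideAt i p).v.b - (D.sideAt i (D.nx i p)).cls) % (D.k : ℤ) = 0 ∧
  ((D.sideAt i p).v.sub (Aff.cst 1)).NN D.u₀ ∧
  ((D.nf.sub (Aff.cst 1)).sub (D.sideAt i p).v).NN D.u₀ ∧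
  (((Aff.smul (D.sideAt i p).va ((D.cell i).len.sub (Aff.cst 1))).add
    (D.sideAt i p).v).sub (Aff.cst 1)).NN D.u₀ ∧
  ((D.nf.sub (Aff.cst 1)).sub ((Aff.smul (D.sideAt i p).va ((D.cell i).len.sub (Aff.cst 1))).add
    (D.sideAt i p).v)).NN D.u₀ ∧
  (D.sideAt i p).r.NN D.u₀ ∧
  ((D.nf.sub (Aff.cst 2)).sub (D.sideAt i p).r).NN D.u₀ ∧
  ((Aff.smul (D.sideAt i p).ra ((D.cell i).len.sub (Aff.cst 1))).add
    (D.sideAt i p).r).NN D.u₀ ∧
  ((D.nf.sub (Aff.cst 2)).sub ((Aff.smul (D.sideAt i p).ra ((D.cell i).len.sub (Aff.cst 1))).add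
    (D.sideAt i p).r)).NN D.u₀ ∧
  cover (D.cell i).len (Aff.cst 0) (D.sideAt i p).pcs = true ∧
  ∀ P ∈ (D.sideAt i p).pcs, D.pieceOK i p P

instance (i p : ℕ) : Decidable (D.sideOK i p) := by
  unfold sideOK; infer_instance

/-- a triangle -/
def triOK (i : ℕ) : Prop :=
  (D.cell i).m = 3 ∧
  (D.sideAt i 0).va + (D.sideAt i 1).va + (D.sideAt i 2).va = 0 ∧
  (((D.sideAt i 0).v.add ((D.sideAt i 1).v.add (D.sideAt i 2).v)) = D.nf ∨
    ((D.sideAt i 0).v.add ((D.sideAt i 1).v.add (D.sideAt i 2).v)) = Aff.smul 2 D.nf)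

instance (i : ℕ) : Decidable (D.triOK i) := by
  unfold triOK; infer_instance

def cellOK (i : ℕ) : Prop :=
  (D.cell i).len.NN D.u₀ ∧ (∀ p < (D.cell i).m, D.sideOK i p) ∧
  ((D.cell i).lab = 0 → D.triOK i) ∧ (D.cell i).lab ≤ D.J ∧
  ((D.cell i).lab ≠ 0 → i = (D.vort ((D.cell i).lab - 1)).cell)

instance (i : ℕ) : Decidable (D.cellOK i) := by
  unfold cellOK; infer_instance

def sumSides (i : ℕ) : ℕ → Aff
  | 0 => Aff.cst 0
  | p + 1 => (sumSides i p).add (D.sideAt i p).v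

def vortOK (e : ℕ) : Prop :=
  (D.vort e).cell < D.cells.length ∧
  (D.cell (D.vort e).cell).lab = e + 1 ∧
  (D.cell (D.vort e).cell).m = D.k ∧
  (D.cell (D.vort e).cell).len = Aff.cst 1 ∧
  (∀ c < D.k, ∃ p < D.k, (D.sideAt (D.vort e).cell p).cls = c) ∧
  (∀ p < D.k, ∀ p' < D.k, (D.sideAt (D.vort e).cell p).cls = (D.sideAt (D.vort e).cell p').cls →
    p = p') ∧
  (D.vort e).sum = D.sumSides (D.vort e).cell D.k ∧
  (D.vort e).x.a * (D.vort e).sum.a + (D.vort e).y.a * D.nf.a = 0 ∧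
  (D.vort e).x.a * (D.vort e).sum.b + (D.vort e).x.b * (D.vort e).sum.a +
    (D.vort e).y.a * D.nf.b + (D.vort e).y.b * D.nf.a = 0 ∧
  (D.vort e).x.b * (D.vort e).sum.b + (D.vort e).y.b * D.nf.b = D.k

instance (e : ℕ) : Decidable (D.vortOK e) := by
  unfold vortOK; infer_instance

/-- one entry of a chain -/
def entOK (cls md : ℤ) (cur : Aff) (e : ℕ × ℕ × ℤ) : Prop :=
  e.1 < D.cells.length ∧ e.2.1 < (D.cell e.1).m ∧ (D.sideAt e.1 e.2.1).cls = cls ∧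
  (((D.sideAt e.1 e.2.1).va = md ∧ (D.sideAt e.1 e.2.1).v.add (Aff.smul e.2.2 D.nf) = cur) ∨
   ((D.sideAt e.1 e.2.1).va = - md ∧
    ((D.sideAt e.1 e.2.1).v.add (Aff.smul (-md) ((D.cell e.1).len.sub (Aff.cst 1)))).add
      (Aff.smul e.2.2 D.nf) = cur) ∨
   ((D.cell e.1).len = Aff.cst 1 ∧ (D.sideAt e.1 e.2.1).v.add (Aff.smul e.2.2 D.nf) = cur))

instance (cls md : ℤ) (cur : Aff) (e : ℕ × ℕ × ℤ) : Decidable (D.entOK cls md cur e) := by
  unfold entOK; infer_instance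

def run (cls md : ℤ) (fin : Aff) : Aff → List (ℕ × ℕ × ℤ) → Bool
  | cur, [] => decide (cur = fin)
  | cur, e :: es => decide (D.entOK cls md cur e) &&
      run cls md fin (cur.add (Aff.smul md (D.cell e.1).len)) es

def chainOK (ch : Chain) : Prop :=
  0 < ch.md ∧ D.nf.a % ch.md = 0 ∧ D.nf.b % ch.md = 0 ∧ ch.start.a % ch.md = 0 ∧
  (D.M : ℤ) % ch.md = 0 ∧ D.run ch.cls ch.md ch.fin ch.start ch.ents = true ∧
  ((ch.fin.sub (ch.start.add D.nf)).NN D.u₀ ∨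
    (ch.start = Aff.cst ch.md ∧ (ch.fin.sub D.nf).NN D.u₀))

instance (ch : Chain) : Decidable (D.chainOK ch) := by
  unfold chainOK; infer_instance

/-- the total number of states -/
def total : List Cell → Aff
  | [] => Aff.cst 0
  | c :: cs => (Aff.smul (c.m : ℤ) c.len).add (total cs)

/-- All conditions. -/
def OK : Prop :=
  0 < D.k ∧ 0 < D.M ∧ (D.nf.sub (Aff.cst 2)).NN D.u₀ ∧ D.nf.a % (D.k : ℤ) = 0 ∧
  D.nf.b % (D.k : ℤ) = 0 ∧
  (∀ i < D.cells.length, D.cellOK i) ∧ (∀ e < D.J, D.vortOK e) ∧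
  total D.cells = Aff.smul (D.k : ℤ) (D.nf.sub (Aff.cst 1)) ∧
  (∀ ch ∈ D.chains, D.chainOK ch) ∧
  (∀ c < D.k, ∀ r < D.M, ∃ ch ∈ D.chains, ch.cls = c ∧ (ch.start.b - r) % ch.md = 0)

instance : Decidable D.OK := by
  unfold OK; infer_instance

end Data

end Pool.Agent.Lib.CurG.Table
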