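import Mathlib
import Pool.Agent.Lib.CurG.Table

/-! Tables for MP_a803c6_co: current graphs of index 2 over `ZMod (12 s)`, `s` even, with two
vortices: `s = 4 u` and `s = 4 u + 2` (`u ≥ 1`), and `s = 2`. -/

namespace Pool.Agent.Lib.CurG.Table

def fam0 : Data where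
  k := 2
  nf := ⟨48, 0⟩
  u₀ := 1
  J := 2
  M := 12
  cells := [
  ⟨⟨2, 0⟩, 0, [
    ⟨1, -6, ⟨36, -1⟩, -6, ⟨12, -4⟩, [⟨⟨0, 0⟩, ⟨0, 1⟩, 20, 0, 0, ⟨0, 0⟩, 1, 0⟩, ⟨⟨0, 1⟩, ⟨2, -1⟩, 6, 2, 1, ⟨0, 0⟩, 1, 0⟩]⟩,
    ⟨0, -6, ⟨36, -2⟩, 6, ⟨12, 10⟩, [⟨⟨0, 0⟩, ⟨2, -1⟩, 2, 0, 1, ⟨0, 0⟩, 1, 0⟩, ⟨⟨2, -1⟩, ⟨0, 1⟩, 17, 1, 0, ⟨0, 0⟩, 1, 0⟩]⟩,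
    ⟨0, 12, ⟨24, 3⟩, -6, ⟨12, -1⟩, [⟨⟨0, 0⟩, ⟨2, 0⟩, 1, 2, 1, ⟨0, 0⟩, 1, 0⟩]⟩]⟩,
  ⟨⟨2, 0⟩, 0, [
    ⟨0, 6, ⟨36, 2⟩, -6, ⟨12, 0⟩, [⟨⟨0, 0⟩, ⟨0, 1⟩, 18, 2, 0, ⟨0, 0⟩, 1, 0⟩, ⟨⟨0, 1⟩, ⟨2, -1⟩, 7, 2, 1, ⟨0, 0⟩, 1, 0⟩]⟩,
    ⟨0, 6, ⟨36, 1⟩, 6, ⟨36, 4⟩, [⟨⟨0, 0⟩, ⟨2, -1⟩, 3, 0, 1, ⟨0, 0⟩, 1, 0⟩, ⟨⟨2, -1⟩, ⟨0, 1⟩, 21, 1, 0, ⟨0, 0⟩, 1, 1⟩]⟩,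
    ⟨1, -12, ⟨24, -3⟩, -6, ⟨12, -5⟩, [⟨⟨0, 0⟩, ⟨2, 0⟩, 0, 2, 1, ⟨0, 0⟩, 1, 0⟩]⟩]⟩,
  ⟨⟨2, -1⟩, 0, [
    ⟨0, 6, ⟨12, 2⟩, -6, ⟨12, -2⟩, [⟨⟨0, 0⟩, ⟨2, -1⟩, 0, 1, 1, ⟨0, 0⟩, 1, 0⟩]⟩,
    ⟨0, -12, ⟨24, -6⟩, 6, ⟨12, 11⟩, [⟨⟨0, 0⟩, ⟨2, -1⟩, 3, 1, 1, ⟨0, 0⟩, 1, 0⟩]⟩,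
    ⟨0, 6, ⟨12, 4⟩, 6, ⟨36, 6⟩, [⟨⟨0, 0⟩, ⟨2, -1⟩, 4, 0, 1, ⟨0, 0⟩, 1, 0⟩]⟩]⟩,
  ⟨⟨2, -1⟩, 0, [
    ⟨1, -6, ⟨12, -1⟩, -6, ⟨12, -6⟩, [⟨⟨0, 0⟩, ⟨2, -1⟩, 1, 1, 1, ⟨0, 0⟩, 1, 0⟩]⟩,
    ⟨0, 12, ⟨24, 6⟩, 6, ⟨36, 5⟩, [⟨⟨0, 0⟩, ⟨2, -1⟩, 2, 1, 1, ⟨0, 0⟩, 1, 0⟩]⟩,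
    ⟨0, -6, ⟨12, -5⟩, 6, ⟨12, 12⟩, [⟨⟨0, 0⟩, ⟨2, -1⟩, 5, 0, 1, ⟨0, 0⟩, 1, 0⟩]⟩]⟩,
  ⟨⟨2, -1⟩, 0, [
    ⟨0, -6, ⟨36, -4⟩, -6, ⟨12, -3⟩, [⟨⟨0, 0⟩, ⟨2, -1⟩, 2, 2, 1, ⟨0, 0⟩, 1, 0⟩]⟩,
    ⟨0, -6, ⟨36, -5⟩, 6, ⟨36, 7⟩, [⟨⟨0, 0⟩, ⟨2, -1⟩, 6, 0, 1, ⟨0, 0⟩, 1, 0⟩]⟩,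
    ⟨1, 12, ⟨24, 9⟩, -6, ⟨12, -8⟩, [⟨⟨0, 0⟩, ⟨2, -1⟩, 5, 2, 1, ⟨0, 0⟩, 1, 0⟩]⟩]⟩,
  ⟨⟨2, -1⟩, 0, [
    ⟨1, 6, ⟨36, 5⟩, -6, ⟨12, -7⟩, [⟨⟨0, 0⟩, ⟨2, -1⟩, 3, 2, 1, ⟨0, 0⟩, 1, 0⟩]⟩,
    ⟨0, 6, ⟨36, 4⟩, 6, ⟨12, 13⟩, [⟨⟨0, 0⟩, ⟨2, -1⟩, 7, 0, 1, ⟨0, 0⟩, 1, 0⟩]⟩,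
    ⟨0, -12, ⟨24, -9⟩, -6, ⟨12, -4⟩, [⟨⟨0, 0⟩, ⟨2, -1⟩, 4, 2, 1, ⟨0, 0⟩, 1, 0⟩]⟩]⟩,
  ⟨⟨2, -1⟩, 0, [
    ⟨1, 6, ⟨12, 5⟩, -6, ⟨12, -9⟩, [⟨⟨0, 0⟩, ⟨2, -1⟩, 4, 1, 1, ⟨0, 0⟩, 1, 0⟩]⟩,
    ⟨0, -12, ⟨24, -12⟩, 6, ⟨36, 8⟩, [⟨⟨0, 0⟩, ⟨2, -1⟩, 7, 1, 1, ⟨0, 0⟩, 1, 0⟩]⟩,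
    ⟨0, 6, ⟨12, 7⟩, 6, ⟨12, 15⟩, [⟨⟨0, 0⟩, ⟨2, -1⟩, 0, 0, 1, ⟨0, 1⟩, 1, 0⟩]⟩]⟩,
  ⟨⟨2, -1⟩, 0, [
    ⟨0, -6, ⟨12, -4⟩, -6, ⟨12, -5⟩, [⟨⟨0, 0⟩, ⟨2, -1⟩, 5, 1, 1, ⟨0, 0⟩, 1, 0⟩]⟩,
    ⟨0, 12, ⟨24, 12⟩, 6, ⟨12, 14⟩, [⟨⟨0, 0⟩, ⟨2, -1⟩, 6, 1, 1, ⟨0, 0⟩, 1, 0⟩]⟩,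
    ⟨0, -6, ⟨12, -8⟩, 6, ⟨36, 9⟩, [⟨⟨0, 0⟩, ⟨2, -1⟩, 1, 0, 1, ⟨0, 1⟩, 1, 0⟩]⟩]⟩,
  ⟨⟨2, 0⟩, 0, [
    ⟨1, 6, ⟨12, 2⟩, -6, ⟨48, -3⟩, [⟨⟨0, 0⟩, ⟨0, 1⟩, 19, 1, 0, ⟨0, 0⟩, 1, 0⟩, ⟨⟨0, 1⟩, ⟨2, -1⟩, 14, 1, 1, ⟨0, 0⟩, 1, 0⟩]⟩,
    ⟨1, -12, ⟨24, -6⟩, 6, ⟨12, 0⟩, [⟨⟨0, 0⟩, ⟨2, 0⟩, 9, 1, 1, ⟨0, 0⟩, 1, 0⟩]⟩,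
    ⟨1, 6, ⟨12, 4⟩, 6, ⟨24, -1⟩, [⟨⟨0, 0⟩, ⟨2, -1⟩, 10, 0, 1, ⟨0, 0⟩, 1, 0⟩, ⟨⟨2, -1⟩, ⟨0, 1⟩, 27, 2, 0, ⟨0, 0⟩, 1, 0⟩]⟩]⟩,
  ⟨⟨2, 0⟩, 0, [
    ⟨0, -6, ⟨12, -1⟩, -6, ⟨36, 2⟩, [⟨⟨0, 0⟩, ⟨0, 1⟩, 18, 1, 0, ⟨0, 0⟩, 1, 0⟩, ⟨⟨0, 1⟩, ⟨2, -1⟩, 15, 1, 1, ⟨0, 0⟩, 1, 0⟩]⟩,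
    ⟨1, 12, ⟨24, 6⟩, 6, ⟨24, -2⟩, [⟨⟨0, 0⟩, ⟨2, 0⟩, 8, 1, 1, ⟨0, 0⟩, 1, 0⟩]⟩,
    ⟨1, -6, ⟨12, -5⟩, 6, ⟨12, 1⟩, [⟨⟨0, 0⟩, ⟨2, -1⟩, 11, 0, 1, ⟨0, 0⟩, 1, 0⟩, ⟨⟨2, -1⟩, ⟨0, 1⟩, 23, 1, 0, ⟨0, 0⟩, 1, 0⟩]⟩]⟩,
  ⟨⟨2, -1⟩, 0, [
    ⟨1, -6, ⟨36, -4⟩, -6, ⟨48, -4⟩, [⟨⟨0, 0⟩, ⟨2, -1⟩, 8, 2, 1, ⟨0, 0⟩, 1, 0⟩]⟩,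
    ⟨1, -6, ⟨36, -5⟩, 6, ⟨24, 0⟩, [⟨⟨0, 0⟩, ⟨2, -1⟩, 12, 0, 1, ⟨0, 0⟩, 1, 0⟩]⟩,
    ⟨0, 12, ⟨24, 9⟩, -6, ⟨36, 0⟩, [⟨⟨0, 0⟩, ⟨2, -1⟩, 11, 2, 1, ⟨0, 0⟩, 1, 0⟩]⟩]⟩,
  ⟨⟨2, -1⟩, 0, [
    ⟨0, 6, ⟨36, 5⟩, -6, ⟨36, 1⟩, [⟨⟨0, 0⟩, ⟨2, -1⟩, 9, 2, 1, ⟨0, 0⟩, 1, 0⟩]⟩,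
    ⟨1, 6, ⟨36, 4⟩, 6, ⟨12, 2⟩, [⟨⟨0, 0⟩, ⟨2, -1⟩, 13, 0, 1, ⟨0, 0⟩, 1, 0⟩]⟩,
    ⟨1, -12, ⟨24, -9⟩, -6, ⟨48, -5⟩, [⟨⟨0, 0⟩, ⟨2, -1⟩, 10, 2, 1, ⟨0, 0⟩, 1, 0⟩]⟩]⟩,
  ⟨⟨2, -1⟩, 0, [
    ⟨0, 6, ⟨12, 5⟩, -6, ⟨36, -1⟩, [⟨⟨0, 0⟩, ⟨2, -1⟩, 10, 1, 1, ⟨0, 0⟩, 1, 0⟩]⟩,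
    ⟨1, -12, ⟨24, -12⟩, 6, ⟨24, 1⟩, [⟨⟨0, 0⟩, ⟨2, -1⟩, 13, 1, 1, ⟨0, 0⟩, 1, 0⟩]⟩,
    ⟨1, 6, ⟨12, 7⟩, 6, ⟨12, 4⟩, [⟨⟨0, 0⟩, ⟨2, -1⟩, 14, 0, 1, ⟨0, 0⟩, 1, 0⟩]⟩]⟩,
  ⟨⟨2, -1⟩, 0, [
    ⟨1, -6, ⟨12, -4⟩, -6, ⟨48, -6⟩, [⟨⟨0, 0⟩, ⟨2, -1⟩, 11, 1, 1, ⟨0, 0⟩, 1, 0⟩]⟩,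
    ⟨1, 12, ⟨24, 12⟩, 6, ⟨12, 3⟩, [⟨⟨0, 0⟩, ⟨2, -1⟩, 12, 1, 1, ⟨0, 0⟩, 1, 0⟩]⟩,
    ⟨1, -6, ⟨12, -8⟩, 6, ⟨24, 2⟩, [⟨⟨0, 0⟩, ⟨2, -1⟩, 15, 0, 1, ⟨0, 0⟩, 1, 0⟩]⟩]⟩,
  ⟨⟨2, -1⟩, 0, [
    ⟨0, -6, ⟨36, -7⟩, -6, ⟨36, -2⟩, [⟨⟨0, 0⟩, ⟨2, -1⟩, 12, 2, 1, ⟨0, 0⟩, 1, 0⟩]⟩,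
    ⟨1, -6, ⟨36, -8⟩, 6, ⟨12, 5⟩, [⟨⟨0, 0⟩, ⟨2, -1⟩, 8, 0, 1, ⟨0, 1⟩, 1, 0⟩]⟩,
    ⟨1, 12, ⟨24, 15⟩, -6, ⟨48, -8⟩, [⟨⟨0, 0⟩, ⟨2, -1⟩, 15, 2, 1, ⟨0, 0⟩, 1, 0⟩]⟩]⟩,
  ⟨⟨2, -1⟩, 0, [
    ⟨1, 6, ⟨36, 8⟩, -6, ⟨48, -7⟩, [⟨⟨0, 0⟩, ⟨2, -1⟩, 13, 2, 1, ⟨0, 0⟩, 1, 0⟩]⟩,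
    ⟨1, 6, ⟨36, 7⟩, 6, ⟨24, 3⟩, [⟨⟨0, 0⟩, ⟨2, -1⟩, 9, 0, 1, ⟨0, 1⟩, 1, 0⟩]⟩,
    ⟨0, -12, ⟨24, -15⟩, -6, ⟨36, -3⟩, [⟨⟨0, 0⟩, ⟨2, -1⟩, 14, 2, 1, ⟨0, 0⟩, 1, 0⟩]⟩]⟩,
  ⟨⟨0, 1⟩, 0, [
    ⟨0, 0, ⟨0, 3⟩, 0, ⟨12, 6⟩, [⟨⟨0, 0⟩, ⟨0, 1⟩, 26, 1, 0, ⟨0, 0⟩, 1, 0⟩]⟩,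
    ⟨1, 0, ⟨0, 3⟩, 0, ⟨36, -2⟩, [⟨⟨0, 0⟩, ⟨0, 1⟩, 22, 0, 0, ⟨0, 0⟩, 1, 0⟩]⟩,
    ⟨0, 0, ⟨48, -6⟩, 0, ⟨0, 3⟩, [⟨⟨0, 0⟩, ⟨0, 1⟩, 17, 0, 0, ⟨0, 0⟩, 1, 0⟩]⟩]⟩,
  ⟨⟨0, 1⟩, 0, [
    ⟨0, 0, ⟨0, 6⟩, 0, ⟨12, 5⟩, [⟨⟨0, 0⟩, ⟨0, 1⟩, 16, 2, 0, ⟨0, 0⟩, 1, 0⟩]⟩,
    ⟨0, 0, ⟨24, -4⟩, 0, ⟨0, 4⟩, [⟨⟨0, 0⟩, ⟨0, 1⟩, 0, 1, 0, ⟨2, -1⟩, 1, 0⟩]⟩,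
    ⟨0, 0, ⟨24, -2⟩, 0, ⟨24, 5⟩, [⟨⟨0, 0⟩, ⟨0, 1⟩, 25, 1, 0, ⟨0, 0⟩, 1, 0⟩]⟩]⟩,
  ⟨⟨0, 1⟩, 0, [
    ⟨0, 0, ⟨0, 1⟩, 0, ⟨12, 1⟩, [⟨⟨0, 0⟩, ⟨0, 1⟩, 23, 2, 0, ⟨0, 0⟩, 1, 0⟩]⟩,
    ⟨1, 0, ⟨36, 1⟩, 0, ⟨24, -3⟩, [⟨⟨0, 0⟩, ⟨0, 1⟩, 9, 0, 0, ⟨0, 0⟩, 1, 0⟩]⟩,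
    ⟨0, 0, ⟨12, -2⟩, 0, ⟨36, 3⟩, [⟨⟨0, 0⟩, ⟨0, 1⟩, 1, 0, 0, ⟨0, 0⟩, 1, 0⟩]⟩]⟩,
  ⟨⟨0, 1⟩, 0, [
    ⟨0, 0, ⟨36, -1⟩, 0, ⟨0, 1⟩, [⟨⟨0, 0⟩, ⟨0, 1⟩, 22, 2, 0, ⟨0, 0⟩, 1, 0⟩]⟩,
    ⟨1, 0, ⟨36, -2⟩, 0, ⟨12, -1⟩, [⟨⟨0, 0⟩, ⟨0, 1⟩, 8, 0, 0, ⟨0, 0⟩, 1, 0⟩]⟩,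
    ⟨1, 0, ⟨24, 3⟩, 0, ⟨48, -2⟩, [⟨⟨0, 0⟩, ⟨0, 1⟩, 21, 0, 0, ⟨0, 0⟩, 1, 1⟩]⟩]⟩,
  ⟨⟨0, 1⟩, 0, [
    ⟨0, 0, ⟨12, 1⟩, 0, ⟨12, 9⟩, [⟨⟨0, 0⟩, ⟨0, 1⟩, 0, 0, 0, ⟨0, 0⟩, 1, 0⟩]⟩,
    ⟨1, 0, ⟨12, -2⟩, 0, ⟨12, -3⟩, [⟨⟨0, 0⟩, ⟨0, 1⟩, 22, 1, 0, ⟨0, 0⟩, 1, 0⟩]⟩,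
    ⟨1, 0, ⟨24, 1⟩, 0, ⟨36, 0⟩, [⟨⟨0, 0⟩, ⟨0, 1⟩, 24, 0, 0, ⟨0, 0⟩, 1, 0⟩]⟩]⟩,
  ⟨⟨0, 1⟩, 1, [
    ⟨0, 0, ⟨24, -3⟩, 0, ⟨0, 0⟩, [⟨⟨0, 0⟩, ⟨0, 1⟩, 19, 2, 0, ⟨0, 0⟩, 1, 0⟩]⟩,
    ⟨1, 0, ⟨0, 5⟩, 0, ⟨0, 0⟩, [⟨⟨0, 0⟩, ⟨0, 1⟩, 1, 1, 0, ⟨2, -1⟩, 1, 0⟩]⟩]⟩,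
  ⟨⟨0, 1⟩, 0, [
    ⟨0, 0, ⟨48, -3⟩, 0, ⟨0, 2⟩, [⟨⟨0, 0⟩, ⟨0, 1⟩, 16, 1, 0, ⟨0, 0⟩, 1, 0⟩]⟩,
    ⟨1, 0, ⟨36, 2⟩, 0, ⟨36, -1⟩, [⟨⟨0, 0⟩, ⟨0, 1⟩, 20, 1, 0, ⟨0, 0⟩, 1, 0⟩]⟩,
    ⟨1, 0, ⟨12, 1⟩, 0, ⟨12, -2⟩, [⟨⟨0, 0⟩, ⟨0, 1⟩, 19, 0, 0, ⟨0, 0⟩, 1, 0⟩]⟩]⟩,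
  ⟨⟨0, 1⟩, 0, [
    ⟨0, 0, ⟨0, 2⟩, 0, ⟨12, 2⟩, [⟨⟨0, 0⟩, ⟨0, 1⟩, 25, 2, 0, ⟨0, 0⟩, 1, 0⟩]⟩,
    ⟨0, 0, ⟨48, -1⟩, 0, ⟨24, 7⟩, [⟨⟨0, 0⟩, ⟨0, 1⟩, 9, 2, 0, ⟨2, -1⟩, 1, 0⟩]⟩,
    ⟨1, 0, ⟨48, -1⟩, 0, ⟨24, -4⟩, [⟨⟨0, 0⟩, ⟨0, 1⟩, 18, 0, 0, ⟨0, 0⟩, 1, 0⟩]⟩]⟩,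
  ⟨⟨0, 1⟩, 0, [
    ⟨0, 0, ⟨24, -1⟩, 0, ⟨12, 8⟩, [⟨⟨0, 0⟩, ⟨0, 1⟩, 20, 2, 0, ⟨0, 0⟩, 1, 0⟩]⟩,
    ⟨1, 0, ⟨0, 2⟩, 0, ⟨36, 1⟩, [⟨⟨0, 0⟩, ⟨0, 1⟩, 27, 1, 0, ⟨0, 0⟩, 1, 0⟩]⟩,
    ⟨1, 0, ⟨24, -1⟩, 0, ⟨36, -4⟩, [⟨⟨0, 0⟩, ⟨0, 1⟩, 26, 0, 0, ⟨0, 0⟩, 1, 0⟩]⟩]⟩,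
  ⟨⟨0, 1⟩, 0, [
    ⟨0, 0, ⟨24, 0⟩, 0, ⟨12, 3⟩, [⟨⟨0, 0⟩, ⟨0, 1⟩, 25, 0, 0, ⟨0, 0⟩, 1, 0⟩]⟩,
    ⟨0, 0, ⟨24, 2⟩, 0, ⟨12, 4⟩, [⟨⟨0, 0⟩, ⟨0, 1⟩, 17, 2, 0, ⟨0, 0⟩, 1, 0⟩]⟩,
    ⟨0, 0, ⟨48, -2⟩, 0, ⟨24, 6⟩, [⟨⟨0, 0⟩, ⟨0, 1⟩, 23, 0, 0, ⟨0, 0⟩, 1, 0⟩]⟩]⟩,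
  ⟨⟨0, 1⟩, 2, [
    ⟨0, 0, ⟨24, 1⟩, 0, ⟨12, 7⟩, [⟨⟨0, 0⟩, ⟨0, 1⟩, 24, 2, 0, ⟨0, 0⟩, 1, 0⟩]⟩,
    ⟨1, 0, ⟨48, -3⟩, 0, ⟨36, -3⟩, [⟨⟨0, 0⟩, ⟨0, 1⟩, 16, 0, 0, ⟨0, 0⟩, 1, 0⟩]⟩]⟩,
  ⟨⟨0, 1⟩, 0, [
    ⟨1, 0, ⟨24, 0⟩, 0, ⟨36, -6⟩, [⟨⟨0, 0⟩, ⟨0, 1⟩, 27, 0, 0, ⟨0, 0⟩, 1, 0⟩]⟩,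
    ⟨1, 0, ⟨48, -2⟩, 0, ⟨36, -5⟩, [⟨⟨0, 0⟩, ⟨0, 1⟩, 24, 1, 0, ⟨0, 0⟩, 1, 0⟩]⟩,
    ⟨1, 0, ⟨24, 2⟩, 0, ⟨36, 2⟩, [⟨⟨0, 0⟩, ⟨0, 1⟩, 8, 2, 0, ⟨2, -1⟩, 1, 0⟩]⟩]⟩]
  chains := [
  ⟨0, 12, ⟨0, 12⟩, ⟨48, 0⟩, [(6, 1, 0), (25, 0, 0), (7, 1, 0)]⟩,
  ⟨0, 6, ⟨0, 1⟩, ⟨48, 1⟩, [(18, 0, 0), (3, 2, 0), (20, 0, 0), (6, 2, 0), (26, 0, 0), (4, 1, 0), (1, 1, 0)]⟩,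
  ⟨0, 6, ⟨0, 2⟩, ⟨48, 2⟩, [(23, 0, 0), (7, 0, 0), (2, 0, 0), (17, 1, 0), (25, 1, 0), (4, 0, 0), (1, 0, 0)]⟩,
  ⟨0, 12, ⟨0, 3⟩, ⟨48, 3⟩, [(16, 0, 0), (5, 2, 0), (0, 2, 0)]⟩,
  ⟨0, 6, ⟨0, 4⟩, ⟨48, 4⟩, [(7, 2, 0), (18, 2, 0), (2, 2, 0), (17, 2, 0), (0, 1, 0), (5, 1, 0), (25, 2, 0)]⟩,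
  ⟨0, 6, ⟨0, 5⟩, ⟨48, 5⟩, [(9, 0, 0), (12, 0, 0), (24, 0, 0), (14, 0, 0), (19, 0, 0), (11, 0, 0), (23, 1, 0)]⟩,
  ⟨0, 12, ⟨0, 6⟩, ⟨48, 6⟩, [(17, 0, 0), (2, 1, 0), (3, 1, 0), (16, 2, 0)]⟩,
  ⟨0, 12, ⟨0, 9⟩, ⟨48, 9⟩, [(15, 2, 0), (21, 0, 0), (10, 2, 0), (22, 0, 0)]⟩,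
  ⟨1, 12, ⟨0, 12⟩, ⟨48, 0⟩, [(12, 1, 0), (27, 0, 0), (13, 1, 0)]⟩,
  ⟨1, 6, ⟨0, 1⟩, ⟨48, 1⟩, [(9, 2, 0), (22, 2, 0), (12, 2, 0), (20, 2, 0), (10, 1, 0), (18, 1, 0), (15, 1, 0)]⟩,
  ⟨1, 6, ⟨0, 2⟩, ⟨48, 2⟩, [(24, 1, 0), (13, 0, 0), (8, 0, 0), (27, 2, 0), (10, 0, 0), (22, 1, 0), (15, 0, 0)]⟩,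
  ⟨1, 12, ⟨0, 3⟩, ⟨48, 3⟩, [(16, 1, 0), (11, 2, 0), (19, 2, 0), (14, 2, 0)]⟩,
  ⟨1, 6, ⟨0, 4⟩, ⟨48, 4⟩, [(13, 2, 0), (20, 1, 0), (8, 2, 0), (14, 1, 0), (19, 1, 0), (11, 1, 0), (27, 1, 0)]⟩,
  ⟨1, 6, ⟨0, 5⟩, ⟨48, 5⟩, [(21, 1, 0), (3, 0, 0), (6, 0, 0), (24, 2, 0), (0, 0, 0), (5, 0, 0), (23, 2, 0)]⟩,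
  ⟨1, 12, ⟨0, 6⟩, ⟨48, 6⟩, [(8, 1, 0), (9, 1, 0)]⟩,
  ⟨1, 12, ⟨0, 9⟩, ⟨48, 9⟩, [(1, 2, 0), (4, 2, 0), (26, 1, 0)]⟩]
  vorts := [
  ⟨21, ⟨24, 2⟩, ⟨12, 1⟩, ⟨-6, -1⟩⟩,
  ⟨26, ⟨72, -2⟩, ⟨12, -1⟩, ⟨-18, 2⟩⟩]

def fam2 : Data where
  k := 2
  nf := ⟨48, 24⟩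
  u₀ := 1
  J := 2
  M := 12
  cells := [
  ⟨⟨2, 1⟩, 0, [
    ⟨1, -6, ⟨36, 17⟩, -6, ⟨12, 2⟩, [⟨⟨0, 0⟩, ⟨0, 1⟩, 20, 0, 0, ⟨0, 0⟩, 1, 0⟩, ⟨⟨0, 1⟩, ⟨2, 0⟩, 6, 2, 1, ⟨0, 0⟩, 1, 0⟩]⟩,
    ⟨0, -6, ⟨36, 16⟩, 6, ⟨12, 16⟩, [⟨⟨0, 0⟩, ⟨2, 0⟩, 2, 0, 1, ⟨0, 0⟩, 1, 0⟩, ⟨⟨2, 0⟩, ⟨0, 1⟩, 17, 1, 0, ⟨0, 0⟩, 1, 0⟩]⟩,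
    ⟨0, 12, ⟨24, 15⟩, -6, ⟨12, 5⟩, [⟨⟨0, 0⟩, ⟨2, 1⟩, 1, 2, 1, ⟨0, 0⟩, 1, 0⟩]⟩]⟩,
  ⟨⟨2, 1⟩, 0, [
    ⟨0, 6, ⟨36, 20⟩, -6, ⟨12, 6⟩, [⟨⟨0, 0⟩, ⟨0, 1⟩, 18, 2, 0, ⟨0, 0⟩, 1, 0⟩, ⟨⟨0, 1⟩, ⟨2, 0⟩, 7, 2, 1, ⟨0, 0⟩, 1, 0⟩]⟩,
    ⟨0, 6, ⟨36, 19⟩, 6, ⟨36, 22⟩, [⟨⟨0, 0⟩, ⟨2, 0⟩, 3, 0, 1, ⟨0, 0⟩, 1, 0⟩, ⟨⟨2, 0⟩, ⟨0, 1⟩, 21, 1, 0, ⟨0, 0⟩, 1, 1⟩]⟩,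
    ⟨1, -12, ⟨24, 9⟩, -6, ⟨12, 1⟩, [⟨⟨0, 0⟩, ⟨2, 1⟩, 0, 2, 1, ⟨0, 0⟩, 1, 0⟩]⟩]⟩,
  ⟨⟨2, 0⟩, 0, [
    ⟨0, 6, ⟨12, 8⟩, -6, ⟨12, 4⟩, [⟨⟨0, 0⟩, ⟨2, 0⟩, 0, 1, 1, ⟨0, 0⟩, 1, 0⟩]⟩,
    ⟨0, -12, ⟨24, 6⟩, 6, ⟨12, 17⟩, [⟨⟨0, 0⟩, ⟨2, 0⟩, 3, 1, 1, ⟨0, 0⟩, 1, 0⟩]⟩,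
    ⟨0, 6, ⟨12, 10⟩, 6, ⟨36, 24⟩, [⟨⟨0, 0⟩, ⟨2, 0⟩, 4, 0, 1, ⟨0, 0⟩, 1, 0⟩]⟩]⟩,
  ⟨⟨2, 0⟩, 0, [
    ⟨1, -6, ⟨12, 5⟩, -6, ⟨12, 0⟩, [⟨⟨0, 0⟩, ⟨2, 0⟩, 1, 1, 1, ⟨0, 0⟩, 1, 0⟩]⟩,
    ⟨0, 12, ⟨24, 18⟩, 6, ⟨36, 23⟩, [⟨⟨0, 0⟩, ⟨2, 0⟩, 2, 1, 1, ⟨0, 0⟩, 1, 0⟩]⟩,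
    ⟨0, -6, ⟨12, 1⟩, 6, ⟨12, 18⟩, [⟨⟨0, 0⟩, ⟨2, 0⟩, 5, 0, 1, ⟨0, 0⟩, 1, 0⟩]⟩]⟩,
  ⟨⟨2, 0⟩, 0, [
    ⟨0, -6, ⟨36, 14⟩, -6, ⟨12, 3⟩, [⟨⟨0, 0⟩, ⟨2, 0⟩, 2, 2, 1, ⟨0, 0⟩, 1, 0⟩]⟩,
    ⟨0, -6, ⟨36, 13⟩, 6, ⟨36, 25⟩, [⟨⟨0, 0⟩, ⟨2, 0⟩, 6, 0, 1, ⟨0, 0⟩, 1, 0⟩]⟩,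
    ⟨1, 12, ⟨24, 21⟩, -6, ⟨12, -2⟩, [⟨⟨0, 0⟩, ⟨2, 0⟩, 5, 2, 1, ⟨0, 0⟩, 1, 0⟩]⟩]⟩,
  ⟨⟨2, 0⟩, 0, [
    ⟨1, 6, ⟨36, 23⟩, -6, ⟨12, -1⟩, [⟨⟨0, 0⟩, ⟨2, 0⟩, 3, 2, 1, ⟨0, 0⟩, 1, 0⟩]⟩,
    ⟨0, 6, ⟨36, 22⟩, 6, ⟨12, 19⟩, [⟨⟨0, 0⟩, ⟨2, 0⟩, 7, 0, 1, ⟨0, 0⟩, 1, 0⟩]⟩,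
    ⟨0, -12, ⟨24, 3⟩, -6, ⟨12, 2⟩, [⟨⟨0, 0⟩, ⟨2, 0⟩, 4, 2, 1, ⟨0, 0⟩, 1, 0⟩]⟩]⟩,
  ⟨⟨2, 0⟩, 0, [
    ⟨1, 6, ⟨12, 11⟩, -6, ⟨12, -3⟩, [⟨⟨0, 0⟩, ⟨2, 0⟩, 4, 1, 1, ⟨0, 0⟩, 1, 0⟩]⟩,
    ⟨0, -12, ⟨24, 0⟩, 6, ⟨36, 26⟩, [⟨⟨0, 0⟩, ⟨2, 0⟩, 7, 1, 1, ⟨0, 0⟩, 1, 0⟩]⟩,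
    ⟨0, 6, ⟨12, 13⟩, 6, ⟨12, 21⟩, [⟨⟨0, 0⟩, ⟨2, 0⟩, 0, 0, 1, ⟨0, 1⟩, 1, 0⟩]⟩]⟩,
  ⟨⟨2, 0⟩, 0, [
    ⟨0, -6, ⟨12, 2⟩, -6, ⟨12, 1⟩, [⟨⟨0, 0⟩, ⟨2, 0⟩, 5, 1, 1, ⟨0, 0⟩, 1, 0⟩]⟩,
    ⟨0, 12, ⟨24, 24⟩, 6, ⟨12, 20⟩, [⟨⟨0, 0⟩, ⟨2, 0⟩, 6, 1, 1, ⟨0, 0⟩, 1, 0⟩]⟩,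
    ⟨0, -6, ⟨12, -2⟩, 6, ⟨36, 27⟩, [⟨⟨0, 0⟩, ⟨2, 0⟩, 1, 0, 1, ⟨0, 1⟩, 1, 0⟩]⟩]⟩,
  ⟨⟨2, 1⟩, 0, [
    ⟨1, 6, ⟨12, 8⟩, -6, ⟨48, 21⟩, [⟨⟨0, 0⟩, ⟨0, 1⟩, 19, 1, 0, ⟨0, 0⟩, 1, 0⟩, ⟨⟨0, 1⟩, ⟨2, 0⟩, 14, 1, 1, ⟨0, 0⟩, 1, 0⟩]⟩,
    ⟨1, -12, ⟨24, 6⟩, 6, ⟨12, 6⟩, [⟨⟨0, 0⟩, ⟨2, 1⟩, 9, 1, 1, ⟨0, 0⟩, 1, 0⟩]⟩,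
    ⟨1, 6, ⟨12, 10⟩, 6, ⟨24, 11⟩, [⟨⟨0, 0⟩, ⟨2, 0⟩, 10, 0, 1, ⟨0, 0⟩, 1, 0⟩, ⟨⟨2, 0⟩, ⟨0, 1⟩, 27, 2, 0, ⟨0, 0⟩, 1, 0⟩]⟩]⟩,
  ⟨⟨2, 1⟩, 0, [
    ⟨0, -6, ⟨12, 5⟩, -6, ⟨36, 20⟩, [⟨⟨0, 0⟩, ⟨0, 1⟩, 18, 1, 0, ⟨0, 0⟩, 1, 0⟩, ⟨⟨0, 1⟩, ⟨2, 0⟩, 15, 1, 1, ⟨0, 0⟩, 1, 0⟩]⟩,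
    ⟨1, 12, ⟨24, 18⟩, 6, ⟨24, 10⟩, [⟨⟨0, 0⟩, ⟨2, 1⟩, 8, 1, 1, ⟨0, 0⟩, 1, 0⟩]⟩,
    ⟨1, -6, ⟨12, 1⟩, 6, ⟨12, 7⟩, [⟨⟨0, 0⟩, ⟨2, 0⟩, 11, 0, 1, ⟨0, 0⟩, 1, 0⟩, ⟨⟨2, 0⟩, ⟨0, 1⟩, 23, 1, 0, ⟨0, 0⟩, 1, 0⟩]⟩]⟩,
  ⟨⟨2, 0⟩, 0, [
    ⟨1, -6, ⟨36, 14⟩, -6, ⟨48, 20⟩, [⟨⟨0, 0⟩, ⟨2, 0⟩, 8, 2, 1, ⟨0, 0⟩, 1, 0⟩]⟩,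
    ⟨1, -6, ⟨36, 13⟩, 6, ⟨24, 12⟩, [⟨⟨0, 0⟩, ⟨2, 0⟩, 12, 0, 1, ⟨0, 0⟩, 1, 0⟩]⟩,
    ⟨0, 12, ⟨24, 21⟩, -6, ⟨36, 18⟩, [⟨⟨0, 0⟩, ⟨2, 0⟩, 11, 2, 1, ⟨0, 0⟩, 1, 0⟩]⟩]⟩,
  ⟨⟨2, 0⟩, 0, [
    ⟨0, 6, ⟨36, 23⟩, -6, ⟨36, 19⟩, [⟨⟨0, 0⟩, ⟨2, 0⟩, 9, 2, 1, ⟨0, 0⟩, 1, 0⟩]⟩,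
    ⟨1, 6, ⟨36, 22⟩, 6, ⟨12, 8⟩, [⟨⟨0, 0⟩, ⟨2, 0⟩, 13, 0, 1, ⟨0, 0⟩, 1, 0⟩]⟩,
    ⟨1, -12, ⟨24, 3⟩, -6, ⟨48, 19⟩, [⟨⟨0, 0⟩, ⟨2, 0⟩, 10, 2, 1, ⟨0, 0⟩, 1, 0⟩]⟩]⟩,
  ⟨⟨2, 0⟩, 0, [
    ⟨0, 6, ⟨12, 11⟩, -6, ⟨36, 17⟩, [⟨⟨0, 0⟩, ⟨2, 0⟩, 10, 1, 1, ⟨0, 0⟩, 1, 0⟩]⟩,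
    ⟨1, -12, ⟨24, 0⟩, 6, ⟨24, 13⟩, [⟨⟨0, 0⟩, ⟨2, 0⟩, 13, 1, 1, ⟨0, 0⟩, 1, 0⟩]⟩,
    ⟨1, 6, ⟨12, 13⟩, 6, ⟨12, 10⟩, [⟨⟨0, 0⟩, ⟨2, 0⟩, 14, 0, 1, ⟨0, 0⟩, 1, 0⟩]⟩]⟩,
  ⟨⟨2, 0⟩, 0, [
    ⟨1, -6, ⟨12, 2⟩, -6, ⟨48, 18⟩, [⟨⟨0, 0⟩, ⟨2, 0⟩, 11, 1, 1, ⟨0, 0⟩, 1, 0⟩]⟩,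
    ⟨1, 12, ⟨24, 24⟩, 6, ⟨12, 9⟩, [⟨⟨0, 0⟩, ⟨2, 0⟩, 12, 1, 1, ⟨0, 0⟩, 1, 0⟩]⟩,
    ⟨1, -6, ⟨12, -2⟩, 6, ⟨24, 14⟩, [⟨⟨0, 0⟩, ⟨2, 0⟩, 15, 0, 1, ⟨0, 0⟩, 1, 0⟩]⟩]⟩,
  ⟨⟨2, 0⟩, 0, [
    ⟨0, -6, ⟨36, 11⟩, -6, ⟨36, 16⟩, [⟨⟨0, 0⟩, ⟨2, 0⟩, 12, 2, 1, ⟨0, 0⟩, 1, 0⟩]⟩,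
    ⟨1, -6, ⟨36, 10⟩, 6, ⟨12, 11⟩, [⟨⟨0, 0⟩, ⟨2, 0⟩, 8, 0, 1, ⟨0, 1⟩, 1, 0⟩]⟩,
    ⟨1, 12, ⟨24, 27⟩, -6, ⟨48, 16⟩, [⟨⟨0, 0⟩, ⟨2, 0⟩, 15, 2, 1, ⟨0, 0⟩, 1, 0⟩]⟩]⟩,
  ⟨⟨2, 0⟩, 0, [
    ⟨1, 6, ⟨36, 26⟩, -6, ⟨48, 17⟩, [⟨⟨0, 0⟩, ⟨2, 0⟩, 13, 2, 1, ⟨0, 0⟩, 1, 0⟩]⟩,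
    ⟨1, 6, ⟨36, 25⟩, 6, ⟨24, 15⟩, [⟨⟨0, 0⟩, ⟨2, 0⟩, 9, 0, 1, ⟨0, 1⟩, 1, 0⟩]⟩,
    ⟨0, -12, ⟨24, -3⟩, -6, ⟨36, 15⟩, [⟨⟨0, 0⟩, ⟨2, 0⟩, 14, 2, 1, ⟨0, 0⟩, 1, 0⟩]⟩]⟩,
  ⟨⟨0, 1⟩, 0, [
    ⟨0, 0, ⟨0, 3⟩, 0, ⟨12, 12⟩, [⟨⟨0, 0⟩, ⟨0, 1⟩, 26, 1, 0, ⟨0, 0⟩, 1, 0⟩]⟩,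
    ⟨1, 0, ⟨0, 3⟩, 0, ⟨36, 16⟩, [⟨⟨0, 0⟩, ⟨0, 1⟩, 22, 0, 0, ⟨0, 0⟩, 1, 0⟩]⟩,
    ⟨0, 0, ⟨48, 18⟩, 0, ⟨0, 3⟩, [⟨⟨0, 0⟩, ⟨0, 1⟩, 17, 0, 0, ⟨0, 0⟩, 1, 0⟩]⟩]⟩,
  ⟨⟨0, 1⟩, 0, [
    ⟨0, 0, ⟨0, 6⟩, 0, ⟨12, 11⟩, [⟨⟨0, 0⟩, ⟨0, 1⟩, 16, 2, 0, ⟨0, 0⟩, 1, 0⟩]⟩,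
    ⟨0, 0, ⟨24, 8⟩, 0, ⟨0, 4⟩, [⟨⟨0, 0⟩, ⟨0, 1⟩, 0, 1, 0, ⟨2, 0⟩, 1, 0⟩]⟩,
    ⟨0, 0, ⟨24, 10⟩, 0, ⟨24, 17⟩, [⟨⟨0, 0⟩, ⟨0, 1⟩, 25, 1, 0, ⟨0, 0⟩, 1, 0⟩]⟩]⟩,
  ⟨⟨0, 1⟩, 0, [
    ⟨0, 0, ⟨0, 1⟩, 0, ⟨12, 7⟩, [⟨⟨0, 0⟩, ⟨0, 1⟩, 23, 2, 0, ⟨0, 0⟩, 1, 0⟩]⟩,
    ⟨1, 0, ⟨36, 19⟩, 0, ⟨24, 9⟩, [⟨⟨0, 0⟩, ⟨0, 1⟩, 9, 0, 0, ⟨0, 0⟩, 1, 0⟩]⟩,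
    ⟨0, 0, ⟨12, 4⟩, 0, ⟨36, 21⟩, [⟨⟨0, 0⟩, ⟨0, 1⟩, 1, 0, 0, ⟨0, 0⟩, 1, 0⟩]⟩]⟩,
  ⟨⟨0, 1⟩, 0, [
    ⟨0, 0, ⟨36, 17⟩, 0, ⟨0, 1⟩, [⟨⟨0, 0⟩, ⟨0, 1⟩, 22, 2, 0, ⟨0, 0⟩, 1, 0⟩]⟩,
    ⟨1, 0, ⟨36, 16⟩, 0, ⟨12, 5⟩, [⟨⟨0, 0⟩, ⟨0, 1⟩, 8, 0, 0, ⟨0, 0⟩, 1, 0⟩]⟩,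
    ⟨1, 0, ⟨24, 15⟩, 0, ⟨48, 22⟩, [⟨⟨0, 0⟩, ⟨0, 1⟩, 21, 0, 0, ⟨0, 0⟩, 1, 1⟩]⟩]⟩,
  ⟨⟨0, 1⟩, 0, [
    ⟨0, 0, ⟨12, 7⟩, 0, ⟨12, 15⟩, [⟨⟨0, 0⟩, ⟨0, 1⟩, 0, 0, 0, ⟨0, 0⟩, 1, 0⟩]⟩,
    ⟨1, 0, ⟨12, 4⟩, 0, ⟨12, 3⟩, [⟨⟨0, 0⟩, ⟨0, 1⟩, 22, 1, 0, ⟨0, 0⟩, 1, 0⟩]⟩,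
    ⟨1, 0, ⟨24, 13⟩, 0, ⟨36, 18⟩, [⟨⟨0, 0⟩, ⟨0, 1⟩, 24, 0, 0, ⟨0, 0⟩, 1, 0⟩]⟩]⟩,
  ⟨⟨0, 1⟩, 1, [
    ⟨0, 0, ⟨24, 9⟩, 0, ⟨0, 0⟩, [⟨⟨0, 0⟩, ⟨0, 1⟩, 19, 2, 0, ⟨0, 0⟩, 1, 0⟩]⟩,
    ⟨1, 0, ⟨0, 5⟩, 0, ⟨0, 0⟩, [⟨⟨0, 0⟩, ⟨0, 1⟩, 1, 1, 0, ⟨2, 0⟩, 1, 0⟩]⟩]⟩,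
  ⟨⟨0, 1⟩, 0, [
    ⟨0, 0, ⟨48, 21⟩, 0, ⟨0, 2⟩, [⟨⟨0, 0⟩, ⟨0, 1⟩, 16, 1, 0, ⟨0, 0⟩, 1, 0⟩]⟩,
    ⟨1, 0, ⟨36, 20⟩, 0, ⟨36, 17⟩, [⟨⟨0, 0⟩, ⟨0, 1⟩, 20, 1, 0, ⟨0, 0⟩, 1, 0⟩]⟩,
    ⟨1, 0, ⟨12, 7⟩, 0, ⟨12, 4⟩, [⟨⟨0, 0⟩, ⟨0, 1⟩, 19, 0, 0, ⟨0, 0⟩, 1, 0⟩]⟩]⟩,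
  ⟨⟨0, 1⟩, 0, [
    ⟨0, 0, ⟨0, 2⟩, 0, ⟨12, 8⟩, [⟨⟨0, 0⟩, ⟨0, 1⟩, 25, 2, 0, ⟨0, 0⟩, 1, 0⟩]⟩,
    ⟨0, 0, ⟨48, 23⟩, 0, ⟨24, 19⟩, [⟨⟨0, 0⟩, ⟨0, 1⟩, 9, 2, 0, ⟨2, 0⟩, 1, 0⟩]⟩,
    ⟨1, 0, ⟨48, 23⟩, 0, ⟨24, 8⟩, [⟨⟨0, 0⟩, ⟨0, 1⟩, 18, 0, 0, ⟨0, 0⟩, 1, 0⟩]⟩]⟩,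
  ⟨⟨0, 1⟩, 0, [
    ⟨0, 0, ⟨24, 11⟩, 0, ⟨12, 14⟩, [⟨⟨0, 0⟩, ⟨0, 1⟩, 20, 2, 0, ⟨0, 0⟩, 1, 0⟩]⟩,
    ⟨1, 0, ⟨0, 2⟩, 0, ⟨36, 19⟩, [⟨⟨0, 0⟩, ⟨0, 1⟩, 27, 1, 0, ⟨0, 0⟩, 1, 0⟩]⟩,
    ⟨1, 0, ⟨24, 11⟩, 0, ⟨36, 14⟩, [⟨⟨0, 0⟩, ⟨0, 1⟩, 26, 0, 0, ⟨0, 0⟩, 1, 0⟩]⟩]⟩,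
  ⟨⟨0, 1⟩, 0, [
    ⟨0, 0, ⟨24, 12⟩, 0, ⟨12, 9⟩, [⟨⟨0, 0⟩, ⟨0, 1⟩, 25, 0, 0, ⟨0, 0⟩, 1, 0⟩]⟩,
    ⟨0, 0, ⟨24, 14⟩, 0, ⟨12, 10⟩, [⟨⟨0, 0⟩, ⟨0, 1⟩, 17, 2, 0, ⟨0, 0⟩, 1, 0⟩]⟩,
    ⟨0, 0, ⟨48, 22⟩, 0, ⟨24, 18⟩, [⟨⟨0, 0⟩, ⟨0, 1⟩, 23, 0, 0, ⟨0, 0⟩, 1, 0⟩]⟩]⟩,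
  ⟨⟨0, 1⟩, 2, [
    ⟨0, 0, ⟨24, 13⟩, 0, ⟨12, 13⟩, [⟨⟨0, 0⟩, ⟨0, 1⟩, 24, 2, 0, ⟨0, 0⟩, 1, 0⟩]⟩,
    ⟨1, 0, ⟨48, 21⟩, 0, ⟨36, 15⟩, [⟨⟨0, 0⟩, ⟨0, 1⟩, 16, 0, 0, ⟨0, 0⟩, 1, 0⟩]⟩]⟩,
  ⟨⟨0, 1⟩, 0, [
    ⟨1, 0, ⟨24, 12⟩, 0, ⟨36, 12⟩, [⟨⟨0, 0⟩, ⟨0, 1⟩, 27, 0, 0, ⟨0, 0⟩, 1, 0⟩]⟩,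
    ⟨1, 0, ⟨48, 22⟩, 0, ⟨36, 13⟩, [⟨⟨0, 0⟩, ⟨0, 1⟩, 24, 1, 0, ⟨0, 0⟩, 1, 0⟩]⟩,
    ⟨1, 0, ⟨24, 14⟩, 0, ⟨36, 20⟩, [⟨⟨0, 0⟩, ⟨0, 1⟩, 8, 2, 0, ⟨2, 0⟩, 1, 0⟩]⟩]⟩]
  chains := [
  ⟨0, 12, ⟨0, 12⟩, ⟨48, 24⟩, [(6, 1, 0), (25, 0, 0), (7, 1, 0)]⟩,
  ⟨0, 6, ⟨0, 1⟩, ⟨48, 25⟩, [(18, 0, 0), (3, 2, 0), (20, 0, 0), (6, 2, 0), (26, 0, 0), (4, 1, 0), (1, 1, 0)]⟩,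
  ⟨0, 6, ⟨0, 2⟩, ⟨48, 26⟩, [(23, 0, 0), (7, 0, 0), (2, 0, 0), (17, 1, 0), (25, 1, 0), (4, 0, 0), (1, 0, 0)]⟩,
  ⟨0, 12, ⟨0, 3⟩, ⟨48, 27⟩, [(16, 0, 0), (5, 2, 0), (0, 2, 0)]⟩,
  ⟨0, 6, ⟨0, 4⟩, ⟨48, 28⟩, [(7, 2, 0), (18, 2, 0), (2, 2, 0), (17, 2, 0), (0, 1, 0), (5, 1, 0), (25, 2, 0)]⟩,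
  ⟨0, 6, ⟨0, 5⟩, ⟨48, 29⟩, [(9, 0, 0), (12, 0, 0), (24, 0, 0), (14, 0, 0), (19, 0, 0), (11, 0, 0), (23, 1, 0)]⟩,
  ⟨0, 12, ⟨0, 6⟩, ⟨48, 30⟩, [(17, 0, 0), (2, 1, 0), (3, 1, 0), (16, 2, 0)]⟩,
  ⟨0, 12, ⟨0, 9⟩, ⟨48, 33⟩, [(15, 2, 0), (21, 0, 0), (10, 2, 0), (22, 0, 0)]⟩,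
  ⟨1, 12, ⟨0, 12⟩, ⟨48, 24⟩, [(12, 1, 0), (27, 0, 0), (13, 1, 0)]⟩,
  ⟨1, 6, ⟨0, 1⟩, ⟨48, 25⟩, [(9, 2, 0), (22, 2, 0), (12, 2, 0), (20, 2, 0), (10, 1, 0), (18, 1, 0), (15, 1, 0)]⟩,
  ⟨1, 6, ⟨0, 2⟩, ⟨48, 26⟩, [(24, 1, 0), (13, 0, 0), (8, 0, 0), (27, 2, 0), (10, 0, 0), (22, 1, 0), (15, 0, 0)]⟩,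
  ⟨1, 12, ⟨0, 3⟩, ⟨48, 27⟩, [(16, 1, 0), (11, 2, 0), (19, 2, 0), (14, 2, 0)]⟩,
  ⟨1, 6, ⟨0, 4⟩, ⟨48, 28⟩, [(13, 2, 0), (20, 1, 0), (8, 2, 0), (14, 1, 0), (19, 1, 0), (11, 1, 0), (27, 1, 0)]⟩,
  ⟨1, 6, ⟨0, 5⟩, ⟨48, 29⟩, [(21, 1, 0), (3, 0, 0), (6, 0, 0), (24, 2, 0), (0, 0, 0), (5, 0, 0), (23, 2, 0)]⟩,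
  ⟨1, 12, ⟨0, 6⟩, ⟨48, 30⟩, [(8, 1, 0), (9, 1, 0)]⟩,
  ⟨1, 12, ⟨0, 9⟩, ⟨48, 33⟩, [(1, 2, 0), (4, 2, 0), (26, 1, 0)]⟩]
  vorts := [
  ⟨21, ⟨24, 14⟩, ⟨12, 7⟩, ⟨-6, -4⟩⟩,
  ⟨26, ⟨72, 34⟩, ⟨12, 5⟩, ⟨-18, -7⟩⟩]

def inst24 : Data where
  k := 2
  nf := ⟨0, 24⟩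
  u₀ := 0
  J := 2
  M := 2
  cells := [
  ⟨⟨0, 1⟩, 1, [
    ⟨0, 0, ⟨0, 7⟩, 0, ⟨0, 0⟩, [⟨⟨0, 0⟩, ⟨0, 1⟩, 8, 1, 0, ⟨0, 0⟩, 1, 0⟩]⟩,
    ⟨1, 0, ⟨0, 3⟩, 0, ⟨0, 0⟩, [⟨⟨0, 0⟩, ⟨0, 1⟩, 4, 1, 0, ⟨0, 0⟩, 1, 0⟩]⟩]⟩,
  ⟨⟨0, 1⟩, 2, [
    ⟨0, 0, ⟨0, 1⟩, 0, ⟨0, 10⟩, [⟨⟨0, 0⟩, ⟨0, 1⟩, 3, 2, 0, ⟨0, 0⟩, 1, 0⟩]⟩,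
    ⟨1, 0, ⟨0, 13⟩, 0, ⟨0, 20⟩, [⟨⟨0, 0⟩, ⟨0, 1⟩, 2, 1, 0, ⟨0, 0⟩, 1, 0⟩]⟩]⟩,
  ⟨⟨0, 1⟩, 0, [
    ⟨0, 0, ⟨0, 4⟩, 0, ⟨0, 20⟩, [⟨⟨0, 0⟩, ⟨0, 1⟩, 7, 1, 0, ⟨0, 0⟩, 1, 0⟩]⟩,
    ⟨0, 0, ⟨0, 11⟩, 0, ⟨0, 9⟩, [⟨⟨0, 0⟩, ⟨0, 1⟩, 1, 1, 0, ⟨0, 0⟩, 1, 0⟩]⟩,
    ⟨1, 0, ⟨0, 9⟩, 0, ⟨0, 21⟩, [⟨⟨0, 0⟩, ⟨0, 1⟩, 8, 0, 0, ⟨0, 0⟩, 1, 0⟩]⟩]⟩,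
  ⟨⟨0, 1⟩, 0, [
    ⟨0, 0, ⟨0, 2⟩, 0, ⟨0, 11⟩, [⟨⟨0, 0⟩, ⟨0, 1⟩, 9, 2, 0, ⟨0, 0⟩, 1, 0⟩]⟩,
    ⟨0, 0, ⟨0, 23⟩, 0, ⟨0, 6⟩, [⟨⟨0, 0⟩, ⟨0, 1⟩, 10, 1, 0, ⟨0, 0⟩, 1, 0⟩]⟩,
    ⟨1, 0, ⟨0, 23⟩, 0, ⟨0, 19⟩, [⟨⟨0, 0⟩, ⟨0, 1⟩, 1, 0, 0, ⟨0, 0⟩, 1, 0⟩]⟩]⟩,
  ⟨⟨0, 1⟩, 0, [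
    ⟨0, 0, ⟨0, 6⟩, 0, ⟨0, 14⟩, [⟨⟨0, 0⟩, ⟨0, 1⟩, 7, 2, 0, ⟨0, 0⟩, 1, 0⟩]⟩,
    ⟨0, 0, ⟨0, 21⟩, 0, ⟨0, 22⟩, [⟨⟨0, 0⟩, ⟨0, 1⟩, 0, 1, 0, ⟨0, 0⟩, 1, 1⟩]⟩,
    ⟨1, 0, ⟨0, 21⟩, 0, ⟨0, 1⟩, [⟨⟨0, 0⟩, ⟨0, 1⟩, 11, 0, 0, ⟨0, 0⟩, 1, 0⟩]⟩]⟩,
  ⟨⟨0, 1⟩, 0, [
    ⟨0, 0, ⟨0, 5⟩, 0, ⟨0, 2⟩, [⟨⟨0, 0⟩, ⟨0, 1⟩, 6, 2, 0, ⟨0, 0⟩, 1, 0⟩]⟩,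
    ⟨1, 0, ⟨0, 11⟩, 0, ⟨0, 10⟩, [⟨⟨0, 0⟩, ⟨0, 1⟩, 12, 0, 0, ⟨0, 0⟩, 1, 0⟩]⟩,
    ⟨0, 0, ⟨0, 8⟩, 0, ⟨0, 18⟩, [⟨⟨0, 0⟩, ⟨0, 1⟩, 8, 2, 0, ⟨0, 0⟩, 1, 0⟩]⟩]⟩,
  ⟨⟨0, 1⟩, 0, [
    ⟨0, 0, ⟨0, 12⟩, 0, ⟨0, 3⟩, [⟨⟨0, 0⟩, ⟨0, 1⟩, 6, 0, 0, ⟨0, 0⟩, 1, 0⟩]⟩,
    ⟨0, 0, ⟨0, 17⟩, 0, ⟨0, 4⟩, [⟨⟨0, 0⟩, ⟨0, 1⟩, 9, 1, 0, ⟨0, 0⟩, 1, 0⟩]⟩,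
    ⟨1, 0, ⟨0, 19⟩, 0, ⟨0, 9⟩, [⟨⟨0, 0⟩, ⟨0, 1⟩, 5, 0, 0, ⟨0, 0⟩, 1, 0⟩]⟩]⟩,
  ⟨⟨0, 1⟩, 0, [
    ⟨0, 0, ⟨0, 10⟩, 0, ⟨0, 15⟩, [⟨⟨0, 0⟩, ⟨0, 1⟩, 10, 2, 0, ⟨0, 0⟩, 1, 0⟩]⟩,
    ⟨0, 0, ⟨0, 20⟩, 0, ⟨0, 8⟩, [⟨⟨0, 0⟩, ⟨0, 1⟩, 2, 0, 0, ⟨0, 0⟩, 1, 0⟩]⟩,
    ⟨0, 0, ⟨0, 18⟩, 0, ⟨0, 21⟩, [⟨⟨0, 0⟩, ⟨0, 1⟩, 4, 0, 0, ⟨0, 0⟩, 1, 0⟩]⟩]⟩,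
  ⟨⟨0, 1⟩, 0, [
    ⟨0, 0, ⟨0, 15⟩, 0, ⟨0, 19⟩, [⟨⟨0, 0⟩, ⟨0, 1⟩, 2, 2, 0, ⟨0, 0⟩, 1, 0⟩]⟩,
    ⟨1, 0, ⟨0, 17⟩, 0, ⟨0, 22⟩, [⟨⟨0, 0⟩, ⟨0, 1⟩, 0, 0, 0, ⟨0, 0⟩, 1, 1⟩]⟩,
    ⟨0, 0, ⟨0, 16⟩, 0, ⟨0, 1⟩, [⟨⟨0, 0⟩, ⟨0, 1⟩, 5, 2, 0, ⟨0, 0⟩, 1, 0⟩]⟩]⟩,
  ⟨⟨0, 1⟩, 0, [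
    ⟨0, 0, ⟨0, 19⟩, 0, ⟨0, 12⟩, [⟨⟨0, 0⟩, ⟨0, 1⟩, 11, 2, 0, ⟨0, 0⟩, 1, 0⟩]⟩,
    ⟨1, 0, ⟨0, 7⟩, 0, ⟨0, 8⟩, [⟨⟨0, 0⟩, ⟨0, 1⟩, 6, 1, 0, ⟨0, 0⟩, 1, 0⟩]⟩,
    ⟨0, 0, ⟨0, 22⟩, 0, ⟨0, 5⟩, [⟨⟨0, 0⟩, ⟨0, 1⟩, 3, 0, 0, ⟨0, 0⟩, 1, 0⟩]⟩]⟩,
  ⟨⟨0, 1⟩, 0, [
    ⟨0, 0, ⟨0, 9⟩, 0, ⟨0, 16⟩, [⟨⟨0, 0⟩, ⟨0, 1⟩, 12, 2, 0, ⟨0, 0⟩, 1, 0⟩]⟩,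
    ⟨1, 0, ⟨0, 1⟩, 0, ⟨0, 18⟩, [⟨⟨0, 0⟩, ⟨0, 1⟩, 3, 1, 0, ⟨0, 0⟩, 1, 0⟩]⟩,
    ⟨0, 0, ⟨0, 14⟩, 0, ⟨0, 7⟩, [⟨⟨0, 0⟩, ⟨0, 1⟩, 7, 0, 0, ⟨0, 0⟩, 1, 0⟩]⟩]⟩,
  ⟨⟨0, 1⟩, 0, [
    ⟨0, 0, ⟨0, 3⟩, 0, ⟨0, 13⟩, [⟨⟨0, 0⟩, ⟨0, 1⟩, 4, 2, 0, ⟨0, 0⟩, 1, 0⟩]⟩,
    ⟨1, 0, ⟨0, 16⟩, 0, ⟨0, 2⟩, [⟨⟨0, 0⟩, ⟨0, 1⟩, 15, 0, 0, ⟨0, 0⟩, 1, 0⟩]⟩,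
    ⟨1, 0, ⟨0, 5⟩, 0, ⟨0, 7⟩, [⟨⟨0, 0⟩, ⟨0, 1⟩, 9, 0, 0, ⟨0, 0⟩, 1, 0⟩]⟩]⟩,
  ⟨⟨0, 1⟩, 0, [
    ⟨0, 0, ⟨0, 13⟩, 0, ⟨0, 17⟩, [⟨⟨0, 0⟩, ⟨0, 1⟩, 5, 1, 0, ⟨0, 0⟩, 1, 0⟩]⟩,
    ⟨1, 0, ⟨0, 20⟩, 0, ⟨0, 11⟩, [⟨⟨0, 0⟩, ⟨0, 1⟩, 13, 0, 0, ⟨0, 0⟩, 1, 0⟩]⟩,
    ⟨1, 0, ⟨0, 15⟩, 0, ⟨0, 17⟩, [⟨⟨0, 0⟩, ⟨0, 1⟩, 10, 0, 0, ⟨0, 0⟩, 1, 0⟩]⟩]⟩,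
  ⟨⟨0, 1⟩, 0, [
    ⟨1, 0, ⟨0, 4⟩, 0, ⟨0, 16⟩, [⟨⟨0, 0⟩, ⟨0, 1⟩, 12, 1, 0, ⟨0, 0⟩, 1, 0⟩]⟩,
    ⟨1, 0, ⟨0, 6⟩, 0, ⟨0, 12⟩, [⟨⟨0, 0⟩, ⟨0, 1⟩, 15, 1, 0, ⟨0, 0⟩, 1, 0⟩]⟩,
    ⟨1, 0, ⟨0, 14⟩, 0, ⟨0, 4⟩, [⟨⟨0, 0⟩, ⟨0, 1⟩, 14, 2, 0, ⟨0, 0⟩, 1, 0⟩]⟩]⟩,
  ⟨⟨0, 1⟩, 0, [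
    ⟨1, 0, ⟨0, 2⟩, 0, ⟨0, 5⟩, [⟨⟨0, 0⟩, ⟨0, 1⟩, 15, 2, 0, ⟨0, 0⟩, 1, 0⟩]⟩,
    ⟨1, 0, ⟨0, 12⟩, 0, ⟨0, 14⟩, [⟨⟨0, 0⟩, ⟨0, 1⟩, 14, 1, 0, ⟨0, 0⟩, 1, 0⟩]⟩,
    ⟨1, 0, ⟨0, 10⟩, 0, ⟨0, 15⟩, [⟨⟨0, 0⟩, ⟨0, 1⟩, 13, 2, 0, ⟨0, 0⟩, 1, 0⟩]⟩]⟩,
  ⟨⟨0, 1⟩, 0, [
    ⟨1, 0, ⟨0, 8⟩, 0, ⟨0, 6⟩, [⟨⟨0, 0⟩, ⟨0, 1⟩, 11, 1, 0, ⟨0, 0⟩, 1, 0⟩]⟩,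
    ⟨1, 0, ⟨0, 18⟩, 0, ⟨0, 3⟩, [⟨⟨0, 0⟩, ⟨0, 1⟩, 13, 1, 0, ⟨0, 0⟩, 1, 0⟩]⟩,
    ⟨1, 0, ⟨0, 22⟩, 0, ⟨0, 13⟩, [⟨⟨0, 0⟩, ⟨0, 1⟩, 14, 0, 0, ⟨0, 0⟩, 1, 0⟩]⟩]⟩]
  chains := [
  ⟨0, 2, ⟨0, 2⟩, ⟨0, 24⟩, [(3, 0, 0), (2, 0, 0), (4, 0, 0), (5, 2, 0), (7, 0, 0), (6, 0, 0), (10, 2, 0), (8, 2, 0), (7, 2, 0), (7, 1, 0), (9, 2, 0)]⟩,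
  ⟨0, 2, ⟨0, 1⟩, ⟨0, 25⟩, [(1, 0, 0), (11, 0, 0), (5, 0, 0), (0, 0, 0), (10, 0, 0), (2, 1, 0), (12, 0, 0), (8, 0, 0), (6, 1, 0), (9, 0, 0), (4, 1, 0), (3, 1, 0)]⟩,
  ⟨1, 2, ⟨0, 2⟩, ⟨0, 24⟩, [(14, 0, 0), (13, 0, 0), (13, 1, 0), (15, 0, 0), (14, 2, 0), (14, 1, 0), (13, 2, 0), (11, 1, 0), (15, 1, 0), (12, 1, 0), (15, 2, 0)]⟩,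
  ⟨1, 2, ⟨0, 1⟩, ⟨0, 25⟩, [(10, 1, 0), (0, 1, 0), (11, 2, 0), (9, 1, 0), (2, 2, 0), (5, 1, 0), (1, 1, 0), (12, 2, 0), (8, 1, 0), (6, 2, 0), (4, 2, 0), (3, 2, 0)]⟩]
  vorts := [
  ⟨0, ⟨0, 10⟩, ⟨0, -499⟩, ⟨0, 208⟩⟩,
  ⟨1, ⟨0, 14⟩, ⟨0, -497⟩, ⟨0, 290⟩⟩]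

theorem inst24_ok : inst24.OK := by decide +kernel

theorem fam0_ok : fam0.OK := by decide +kernel

theorem fam2_ok : fam2.OK := by decide +kernel

end Pool.Agent.Lib.CurG.Table
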