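import Mathlib
import Pool.Agent.Lib.CurG.Table

/-!
# A valid table gives a family of current graphs
-/

namespace Pool.Agent.Lib.CurG.Table

open Aff

theorem lin_nonneg {a b t L : ℤ} (h0 : 0 ≤ b) (h1 : 0 ≤ a * (L - 1) + b) (ht : 0 ≤ t)
    (ht' : t ≤ L - 1) : 0 ≤ a * t + b := by
  rcases le_total 0 a with ha | ha
  · have := mul_nonneg ha ht; omega
  · have := mul_nonneg_of_nonpos_of_nonpos ha (show t - (L - 1) ≤ 0 by omega)
    nlinarith

namespace Data

variable {D : Data}

/-- the value of the state -/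
def val (D : Data) (u : ℤ) (i p : ℕ) (q : ℤ) : ℤ := (D.sideAt i p).va * q + (D.sideAt i p).v.ev u

/-- its rank -/
def rk (D : Data) (u : ℤ) (i p : ℕ) (q : ℤ) : ℤ := (D.sideAt i p).ra * q + (D.sideAt i p).r.ev u

/-- a valid address of a state -/
def Valid (D : Data) (u : ℤ) (i p : ℕ) (q : ℤ) : Prop :=
  i < D.cells.length ∧ p < (D.cell i).m ∧ 0 ≤ q ∧ q < (D.cell i).len.ev u

theorem OK.side (h : D.OK) {i p : ℕ} (hi : i < D.cells.length) (hp : p < (D.cell i).m) :
    D.sideOK i p := (h.2.2.2.2.2.1 i hi).2.1 p hp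

variable {u : ℤ} {N : ℕ}

theorem Valid.nx {i p : ℕ} {q : ℤ} (hv : D.Valid u i p q) : D.Valid u i (D.nx i p) q :=
  ⟨hv.1, Nat.mod_lt _ (by have := hv.2.1; omega), hv.2.2⟩

section
variable (h : D.OK) (hu : D.u₀ ≤ u) (hN : (N : ℤ) = D.nf.ev u)
include h hu hN

theorem two_le : 2 ≤ N := by
  have := h.2.2.1.ev hu
  rw [ev_sub, ev_cst, ← hN] at this
  omega

omit hu in
theorem k_dvd : D.k ∣ N := by
  have h1 := h.2.2.2.1
  have h2 := h.2.2.2.2.1
  have : (D.k : ℤ) ∣ (N : ℤ) := by
    rw [hN, Aff.ev]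
    exact dvd_add (Dvd.dvd.mul_right (Int.dvd_of_emod_eq_zero h1) _)
      (Int.dvd_of_emod_eq_zero h2)
  exact_mod_cast this

theorem val_range {i p : ℕ} {q : ℤ} (hv : D.Valid u i p q) :
    1 ≤ D.val u i p q ∧ D.val u i p q ≤ N - 1 := by
  obtain ⟨hi, hp, hq, hq'⟩ := hv
  obtain ⟨-, -, -, -, -, a1, a2, a3, a4, -⟩ := h.side hi hp
  have a1 := a1.ev hu
  have a2 := a2.ev hu
  have a3 := a3.ev hu
  have a4 := a4.ev hu
  simp only [ev_sub, ev_add, ev_smul, ev_cst, ← hN] at a1 a2 a3 a4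
  have b1 := lin_nonneg (a := (D.sideAt i p).va) (b := (D.sideAt i p).v.ev u - 1) (t := q)
    (L := (D.cell i).len.ev u) a1 (by linarith) hq (by omega)
  have b2 := lin_nonneg (a := -(D.sideAt i p).va) (b := N - 1 - (D.sideAt i p).v.ev u) (t := q)
    (L := (D.cell i).len.ev u) a2 (by linarith) hq (by omega)
  unfold val
  constructor <;> linarith

theorem rk_range {i p : ℕ} {q : ℤ} (hv : D.Valid u i p q) :
    0 ≤ D.rk u i p q ∧ D.rk u i p q ≤ N - 2 := by
  obtain ⟨hi, hp, hq, hq'⟩ := hv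
  obtain ⟨-, -, -, -, -, -, -, -, -, a1, a2, a3, a4, -⟩ := h.side hi hp
  have a1 := a1.ev hu
  have a2 := a2.ev hu
  have a3 := a3.ev hu
  have a4 := a4.ev hu
  simp only [ev_sub, ev_add, ev_smul, ev_cst, ← hN] at a1 a2 a3 a4
  have b1 := lin_nonneg (a := (D.sideAt i p).ra) (b := (D.sideAt i p).r.ev u) (t := q)
    (L := (D.cell i).len.ev u) a1 (by linarith) hq (by omega)
  have b2 := lin_nonneg (a := -(D.sideAt i p).ra) (b := N - 2 - (D.sideAt i p).r.ev u) (t := q)
    (L := (D.cell i).len.ev u) a2 (by linarith) hq (by omega)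
  unfold rk
  constructor <;> linarith

omit hu hN in
/-- the value modulo `k` -/
theorem val_mod {i p : ℕ} {q : ℤ} (hv : D.Valid u i p q) :
    (D.k : ℤ) ∣ D.val u i p q - (D.sideAt i p).v.b := by
  obtain ⟨-, -, a1, a2, -⟩ := h.side hv.1 hv.2.1
  have : D.val u i p q - (D.sideAt i p).v.b = (D.sideAt i p).va * q + (D.sideAt i p).v.a * u := by
    unfold val Aff.ev; ring
  rw [this]
  exact dvd_add (Dvd.dvd.mul_right (Int.dvd_of_emod_eq_zero a1) _)
    (Dvd.dvd.mul_right (Int.dvd_of_emod_eq_zero a2) _)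

omit hu hN in
theorem cls_next {i p : ℕ} {q : ℤ} (hv : D.Valid u i p q) :
    (D.k : ℤ) ∣ (D.sideAt i p).cls + D.val u i p q - (D.sideAt i (D.nx i p)).cls := by
  obtain ⟨-, -, -, -, a1, -⟩ := h.side hv.1 hv.2.1
  have e : (D.sideAt i p).cls + D.val u i p q - (D.sideAt i (D.nx i p)).cls
      = ((D.sideAt i p).cls + (D.sideAt i p).v.b - (D.sideAt i (D.nx i p)).cls)
        + (D.val u i p q - (D.sideAt i p).v.b) := by ring
  rw [e]
  exact dvd_add (Int.dvd_of_emod_eq_zero a1) (val_mod h hv)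

omit h hu hN in
theorem cover_spec {len : Aff} : ∀ (Ps : List Piece) (q : Aff) (x : ℤ),
    cover len q Ps = true → q.ev u ≤ x → x < len.ev u →
    ∃ P ∈ Ps, P.q0.ev u ≤ x ∧ x ≤ P.q0.ev u + P.cnt.ev u - 1 := by
  intro Ps
  induction Ps with
  | nil =>
    intro q x hc h1 h2
    simp only [cover, decide_eq_true_eq] at hc
    rw [hc] at h1
    omega
  | cons P Ps ih =>
    intro q x hc h1 h2
    simp only [cover, Bool.and_eq_true, decide_eq_true_eq] at hc
    obtain ⟨hc1, hc2⟩ := hc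
    by_cases hx : x < q.ev u + P.cnt.ev u
    · refine ⟨P, List.mem_cons_self, ?_, ?_⟩ <;> rw [hc1] <;> omega
    · obtain ⟨P', hP', h3⟩ := ih (q.add P.cnt) x hc2 (by rw [ev_add]; omega) h2
      exact ⟨P', List.mem_cons_of_mem _ hP', h3⟩

/-- The reverse state, and the rank of its successor. -/
theorem exists_mate {i p : ℕ} {q : ℤ} (hv : D.Valid u i p q) :
    ∃ i' p' q', D.Valid u i' p' q' ∧ (∃ z : ℤ, D.val u i p q + D.val u i' p' q' = z * N) ∧
      (D.k : ℤ) ∣ (D.sideAt i p).cls + D.val u i p q - (D.sideAt i' p').cls ∧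
      ∃ w : ℤ, D.rk u i p q + 1 = D.rk u i' (D.nx i' p') q' + w * (N - 1) := by
  obtain ⟨hi, hp, hq, hq'⟩ := hv
  obtain ⟨-, -, -, -, -, -, -, -, -, -, -, -, -, hcov, hpc⟩ := h.side hi hp
  obtain ⟨P, hP, h1, h2⟩ := cover_spec _ _ q hcov (by rw [ev_cst]; exact hq) hq'
  obtain ⟨c1, c2, c3, c4, c5, c6, c7, c8, c9, c10, c11⟩ := hpc P hP
  set t := q - P.q0.ev u with ht
  have ht0 : 0 ≤ t := by omega
  have ht1 : t ≤ P.cnt.ev u - 1 := by omega
  have c3 := c3.ev hu
  have c4 := c4.ev hu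
  have c5 := c5.ev hu
  have c6 := c6.ev hu
  have c7 := congrArg (fun f => Aff.ev f u) c7
  have c10 := congrArg (fun f => Aff.ev f u) c10
  simp only [ev_sub, ev_add, ev_smul, ev_cst, ← hN] at c3 c4 c5 c6 c7 c10
  have b1 := lin_nonneg (a := P.sg) (b := P.off.ev u) (t := t) (L := P.cnt.ev u) c3
    (by linarith) ht0 ht1
  have b2 := lin_nonneg (a := -P.sg) (b := (D.cell P.cell).len.ev u - (1 + P.off.ev u)) (t := t)
    (L := P.cnt.ev u) c4 (by linarith) ht0 ht1
  have hone : P.cnt = Aff.cst 1 → t = 0 := by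
    intro h
    rw [h, ev_cst] at ht1
    omega
  refine ⟨P.cell, P.side, P.sg * t + P.off.ev u, ⟨c1, c2, b1, by linarith⟩, ⟨P.z, ?_⟩, ?_, P.w, ?_⟩
  · have e1 : (D.sideAt i p).va * t + (D.sideAt P.cell P.side).va * (P.sg * t) = 0 := by
      rcases c8 with c8 | c8
      · rw [← mul_assoc, ← add_mul, c8, zero_mul]
      · rw [hone c8]; ring
    have e2 : q = P.q0.ev u + t := by omega
    unfold val
    rw [e2, ← c7]
    linear_combination e1
  · have e : (D.sideAt i p).cls + D.val u i p q - (D.sideAt P.cell P.side).cls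
        = ((D.sideAt i p).cls + (D.sideAt i p).v.b - (D.sideAt P.cell P.side).cls)
          + (D.val u i p q - (D.sideAt i p).v.b) := by ring
    rw [e]
    exact dvd_add (Int.dvd_of_emod_eq_zero c9) (val_mod h ⟨hi, hp, hq, hq'⟩)
  · have e1 : (D.sideAt i p).ra * t = (D.sideAt P.cell (D.nx P.cell P.side)).ra * (P.sg * t) := by
      rcases c11 with c11 | c11
      · rw [c11]; ring
      · rw [hone c11]; ring
    have e2 : q = P.q0.ev u + t := by omega
    unfold rk
    rw [e2]
    linear_combination c10 + e1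

omit h hu in
theorem run_spec {cls md : ℤ} (hmd : 0 < md) {fin : Aff} : ∀ (es : List (ℕ × ℕ × ℤ)) (cur : Aff)
    (x : ℤ), D.run cls md fin cur es = true → cur.ev u ≤ x → x < fin.ev u → md ∣ x - cur.ev u →
    ∃ i p q, D.Valid u i p q ∧ (D.sideAt i p).cls = cls ∧ ∃ z : ℤ, D.val u i p q + z * N = x := by
  intro es
  induction es with
  | nil =>
    intro cur x hr h1 h2
    simp only [run, decide_eq_true_eq] at hr
    rw [hr] at h1
    omega
  | cons e es ih =>
    intro cur x hr h1 h2 h3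
    simp only [run, Bool.and_eq_true, decide_eq_true_eq] at hr
    obtain ⟨⟨c1, c2, c3, c4⟩, hr2⟩ := hr
    by_cases hx : x < cur.ev u + md * (D.cell e.1).len.ev u
    · obtain ⟨t, ht⟩ := h3
      have ht0 : 0 ≤ t := by
        by_contra hneg
        have : md * t < 0 := mul_neg_of_pos_of_neg hmd (by omega)
        omega
      have ht1 : t < (D.cell e.1).len.ev u := by
        by_contra hge
        have : md * (D.cell e.1).len.ev u ≤ md * t := by
          apply mul_le_mul_of_nonneg_left _ hmd.le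
          omega
        omega
      rcases c4 with ⟨d1, d2⟩ | ⟨d1, d2⟩ | ⟨d1, d2⟩
      · have d2 := congrArg (fun f => Aff.ev f u) d2
        simp only [ev_add, ev_smul, ev_cst, ← hN] at d2
        refine ⟨e.1, e.2.1, t, ⟨c1, c2, ht0, ht1⟩, c3, e.2.2, ?_⟩
        unfold val
        rw [d1]
        linear_combination d2 - ht
      · have d2 := congrArg (fun f => Aff.ev f u) d2
        simp only [ev_add, ev_sub, ev_smul, ev_cst, ← hN] at d2
        refine ⟨e.1, e.2.1, (D.cell e.1).len.ev u - 1 - t, ⟨c1, c2, by omega, by omega⟩, c3,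
          e.2.2, ?_⟩
        unfold val
        rw [d1]
        linear_combination d2 - ht
      · have d2 := congrArg (fun f => Aff.ev f u) d2
        simp only [ev_add, ev_smul, ev_cst, ← hN] at d2
        rw [d1, ev_cst] at ht1
        have ht2 : t = 0 := by omega
        refine ⟨e.1, e.2.1, t, ⟨c1, c2, ht0, by rw [d1, ev_cst]; exact ht1⟩, c3, e.2.2, ?_⟩
        unfold val
        rw [ht2] at ht ⊢
        linear_combination d2 - ht
    · apply ih _ x hr2 (by rw [ev_add, ev_smul]; omega) h2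
      rw [ev_add, ev_smul]
      have : x - (cur.ev u + md * (D.cell e.1).len.ev u)
          = (x - cur.ev u) - md * (D.cell e.1).len.ev u := by ring
      rw [this]
      exact dvd_sub h3 (Dvd.intro _ rfl)

theorem exists_valid (c : ℕ) (hc : c < D.k) (y : ℤ) (hy : ¬ (N : ℤ) ∣ y) :
    ∃ i p q, D.Valid u i p q ∧ (D.sideAt i p).cls = c ∧ (N : ℤ) ∣ D.val u i p q - y := by
  have hM : (0 : ℤ) < D.M := by exact_mod_cast h.2.1
  have hN2 := two_le h hu hN
  obtain ⟨ch, hch, hcls, hres⟩ := h.2.2.2.2.2.2.2.2.2 c hc (y % D.M).toNat (by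
    have := Int.emod_lt_of_pos y hM
    have := Int.emod_nonneg y hM.ne'
    omega)
  obtain ⟨hmd, e1, e2, e3, e4, hrun, hfin⟩ := h.2.2.2.2.2.2.2.2.1 ch hch
  rw [Int.toNat_of_nonneg (Int.emod_nonneg y hM.ne')] at hres
  have hmdN : ch.md ∣ (N : ℤ) := by
    rw [hN, Aff.ev]
    exact dvd_add (Dvd.dvd.mul_right (Int.dvd_of_emod_eq_zero e1) _) (Int.dvd_of_emod_eq_zero e2)
  have hmdy : ch.md ∣ y - ch.start.ev u := by
    have f1 := Int.dvd_of_emod_eq_zero hres
    have f2 : ch.md ∣ (D.M : ℤ) * (y / D.M) :=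
      Dvd.dvd.mul_right (Int.dvd_of_emod_eq_zero e4) _
    have f3 : ch.md ∣ ch.start.a * u := Dvd.dvd.mul_right (Int.dvd_of_emod_eq_zero e3) _
    have e : y - ch.start.ev u = (D.M : ℤ) * (y / D.M) - (ch.start.b - y % D.M)
        - ch.start.a * u := by
      have := Int.mul_ediv_add_emod y D.M
      unfold Aff.ev
      linarith
    rw [e]
    exact dvd_sub (dvd_sub f2 f1) f3
  set r := (y - ch.start.ev u) % (N : ℤ) with hr
  have hNpos : (0 : ℤ) < N := by omega
  have hr0 : 0 ≤ r := Int.emod_nonneg _ hNpos.ne'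
  have hr1 : r < N := Int.emod_lt_of_pos _ hNpos
  have hrmd : ch.md ∣ r := by
    rw [hr, Int.emod_def]
    exact dvd_sub hmdy (Dvd.dvd.mul_right hmdN _)
  have hxy : (N : ℤ) ∣ (ch.start.ev u + r) - y := by
    have : (ch.start.ev u + r) - y = -((N : ℤ) * ((y - ch.start.ev u) / N)) := by
      have := Int.mul_ediv_add_emod (y - ch.start.ev u) N
      rw [hr]
      linarith
    rw [this]
    exact (Dvd.intro _ rfl : (N : ℤ) ∣ _).neg_right
  have hlt : ch.start.ev u + r < ch.fin.ev u := by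
    rcases hfin with hfin | ⟨hs, hfin⟩
    · have := hfin.ev hu
      rw [ev_sub, ev_add, ← hN] at this
      omega
    · have h1 := hfin.ev hu
      rw [ev_sub, ← hN] at h1
      have h2 : ch.start.ev u = ch.md := by rw [hs, ev_cst]
      rw [h2] at hxy ⊢
      by_contra hcon
      have h3 : (N : ℤ) ≤ ch.md + r := by omega
      have h4 : ch.md + r ≠ N := by
        intro h5
        rw [h5] at hxy
        exact hy ((dvd_sub_right (dvd_refl _)).1 hxy)
      have h5 : ch.md ∣ ch.md + r - N := dvd_sub (dvd_add (dvd_refl _) hrmd) hmdN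
      have h6 := Int.le_of_dvd (by omega) h5
      omega
  obtain ⟨i, p, q, hv, hcl, z, hz⟩ := run_spec hN hmd ch.ents ch.start (ch.start.ev u + r) hrun
    (by omega) hlt (by rw [add_sub_cancel_left]; exact hrmd)
  refine ⟨i, p, q, hv, by rw [hcl, hcls], ?_⟩
  have : D.val u i p q - y = (ch.start.ev u + r - y) - z * N := by rw [← hz]; ring
  rw [this]
  exact dvd_sub hxy (Dvd.intro_left _ rfl)

end

/-! ### The bijection between addresses and states -/

/-- Addresses. -/
abbrev Slot (D : Data) (u : ℤ) : Type :=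
  Σ i : Fin D.cells.length, Fin (D.cell i).m × Fin ((D.cell i).len.ev u).toNat

theorem sum_getD (F : Cell → ℤ) : ∀ l : List Cell,
    ∑ i : Fin l.length, F (l.getD i default) = (l.map F).sum := by
  intro l
  induction l with
  | nil => simp
  | cons c l ih =>
    rw [List.map_cons, List.sum_cons, ← ih]
    exact Fin.sum_univ_succ (n := l.length) (fun i => F ((c :: l).getD i default))

theorem total_ev (u : ℤ) : ∀ l : List Cell,
    (total l).ev u = (l.map fun c => (c.m : ℤ) * c.len.ev u).sum := by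
  intro l
  induction l with
  | nil => simp [total, ev_cst]
  | cons c l ih => rw [total, ev_add, ev_smul, ih, List.map_cons, List.sum_cons]

theorem card_slot (h : D.OK) (hu : D.u₀ ≤ u) (hN : (N : ℤ) = D.nf.ev u) :
    Fintype.card (Slot D u) = D.k * (N - 1) := by
  have h1 : ((Fintype.card (Slot D u) : ℕ) : ℤ) = (total D.cells).ev u := by
    rw [total_ev, ← sum_getD, Fintype.card_sigma]
    push_cast
    apply Finset.sum_congr rfl
    intro i _
    rw [Fintype.card_prod, Fintype.card_fin, Fintype.card_fin]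
    have hlen : 0 ≤ (D.cell i).len.ev u := (h.2.2.2.2.2.1 i i.2).1.ev hu
    push_cast
    rw [Int.toNat_of_nonneg hlen]
    rfl
  rw [h.2.2.2.2.2.2.2.1, ev_smul, ev_sub, ev_cst, ← hN] at h1
  have h2 := two_le h hu hN
  zify
  rw [h1, Nat.cast_sub (by omega)]
  rfl

end Data

end Pool.Agent.Lib.CurG.Table
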